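import Mathlib

/-!
# FTX, module Int: from restricted estimates to the strong estimate for a trilinear form
-/

set_option autoImplicit false

open MeasureTheory Set
open scoped ENNReal NNReal

namespace Pool.Agent.FTX

/-! ### layers -/

/-- a number as an integral over its exponential layers -/
theorem layer_le (x : ℝ≥0∞) :
    x ≤ ∫⁻ s in {s : ℝ | ENNReal.ofReal (Real.exp s) < x}, ENNReal.ofReal (Real.exp s) := by
  rcases eq_or_ne x ⊤ with rfl | hx
  · have h1 : {s : ℝ | ENNReal.ofReal (Real.exp s) < ⊤} = univ := by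
      ext s; simp
    rw [h1, Measure.restrict_univ]
    have h2 : (⊤ : ℝ≥0∞) = ∫⁻ s in Ioi (0 : ℝ), (1 : ℝ≥0∞) := by
      rw [setLIntegral_one, Real.volume_Ioi]
    rw [h2]
    refine (setLIntegral_mono' measurableSet_Ioi fun s hs => ?_).trans (setLIntegral_le_lintegral _ _)
    rw [← ENNReal.ofReal_one]
    refine ENNReal.ofReal_le_ofReal ?_
    exact Real.one_le_exp (le_of_lt hs)
  rcases eq_or_ne x 0 with rfl | h0
  · exact zero_le
  have hpos : 0 < x.toReal := ENNReal.toReal_pos h0 hx
  have h1 : Iio (Real.log x.toReal) ⊆ {s : ℝ | ENNReal.ofReal (Real.exp s) < x} := by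
    intro s hs
    show ENNReal.ofReal (Real.exp s) < x
    rw [ENNReal.ofReal_lt_iff_lt_toReal (Real.exp_pos s).le hx]
    exact (Real.lt_log_iff_exp_lt hpos).1 hs
  calc x = ENNReal.ofReal (∫ s in Iic (Real.log x.toReal), Real.exp s) := by
        rw [integral_exp_Iic, Real.exp_log hpos, ENNReal.ofReal_toReal hx]
    _ = ∫⁻ s in Iic (Real.log x.toReal), ENNReal.ofReal (Real.exp s) := by
        rw [ofReal_integral_eq_lintegral_ofReal (integrableOn_exp_Iic _)]
        exact Filter.Eventually.of_forall fun s => (Real.exp_pos s).le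
    _ = ∫⁻ s in Iio (Real.log x.toReal), ENNReal.ofReal (Real.exp s) := by
        rw [setLIntegral_congr Iio_ae_eq_Iic]
    _ ≤ ∫⁻ s in {s : ℝ | ENNReal.ofReal (Real.exp s) < x}, ENNReal.ofReal (Real.exp s) :=
        lintegral_mono_set h1

/-- powers of a number from its layers -/
theorem layer_pow_le (x : ℝ≥0∞) (P : ℝ) (hP : 0 < P) :
    ∫⁻ s in {s : ℝ | ENNReal.ofReal (Real.exp s) < x}, ENNReal.ofReal (Real.exp (P * s)) ≤
      ENNReal.ofReal (1 / P) * x ^ P := by
  rcases eq_or_ne x ⊤ with rfl | hx
  · rw [ENNReal.top_rpow_of_pos hP, ENNReal.mul_top]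
    · exact le_top
    · simpa using hP
  rcases eq_or_ne x 0 with rfl | h0
  · simp
  have hpos : 0 < x.toReal := ENNReal.toReal_pos h0 hx
  have h1 : {s : ℝ | ENNReal.ofReal (Real.exp s) < x} ⊆ Iic (Real.log x.toReal) := by
    intro s hs
    have hs' : ENNReal.ofReal (Real.exp s) < x := hs
    rw [ENNReal.ofReal_lt_iff_lt_toReal (Real.exp_pos s).le hx] at hs'
    exact ((Real.lt_log_iff_exp_lt hpos).2 hs').le
  refine (lintegral_mono_set h1).trans ?_
  rw [← ofReal_integral_eq_lintegral_ofReal (integrableOn_exp_mul_Iic hP _)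
    (Filter.Eventually.of_forall fun s => (Real.exp_pos _).le), integral_exp_mul_Iic hP]
  have h2 : Real.exp (P * Real.log x.toReal) = x.toReal ^ P := by
    rw [Real.rpow_def_of_pos hpos, mul_comm]
  rw [h2, div_eq_mul_inv, mul_comm, ENNReal.ofReal_mul (inv_nonneg.2 hP.le),
    ← ENNReal.ofReal_rpow_of_pos hpos, ENNReal.ofReal_toReal hx, one_div]

/-- the distribution function in exponential variables -/
noncomputable def dis {X : Type*} [MeasurableSpace X] (μ : Measure X) (g : X → ℝ≥0∞) (s : ℝ) :
    ℝ≥0∞ := μ {x | ENNReal.ofReal (Real.exp s) < g x}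

theorem dis_anti {X : Type*} [MeasurableSpace X] (μ : Measure X) (g : X → ℝ≥0∞) :
    Antitone (dis μ g) := by
  intro s s' h
  refine measure_mono fun x hx => ?_
  exact lt_of_le_of_lt (ENNReal.ofReal_le_ofReal (Real.exp_le_exp.2 h)) hx

/-- the weighted distribution function -/
noncomputable def wdis {X : Type*} [MeasurableSpace X] (μ : Measure X) (g : X → ℝ≥0∞) (P s : ℝ) :
    ℝ≥0∞ := dis μ g s * ENNReal.ofReal (Real.exp (P * s))

theorem measurable_wdis {X : Type*} [MeasurableSpace X] (μ : Measure X) (g : X → ℝ≥0∞) (P : ℝ) :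
    Measurable (wdis μ g P) := by
  refine (dis_anti μ g).measurable.mul ?_
  exact (Real.measurable_exp.comp (measurable_const.mul measurable_id)).ennreal_ofReal

theorem lintegral_wdis_le {X : Type*} [MeasurableSpace X] (μ : Measure X) [SFinite μ]
    (g : X → ℝ≥0∞) (hg : Measurable g) (P : ℝ) (hP : 0 < P) :
    ∫⁻ s, wdis μ g P s ≤ ENNReal.ofReal (1 / P) * ∫⁻ x, g x ^ P ∂μ := by
  have hms : MeasurableSet {z : ℝ × X | ENNReal.ofReal (Real.exp z.1) < g z.2} := by
    refine measurableSet_lt ?_ (hg.comp measurable_snd)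
    exact (Real.measurable_exp.comp measurable_fst).ennreal_ofReal
  have hme : Measurable fun s : ℝ => ENNReal.ofReal (Real.exp (P * s)) :=
    (Real.measurable_exp.comp (measurable_const.mul measurable_id)).ennreal_ofReal
  have h1 : ∀ s, wdis μ g P s = ∫⁻ x, {z : ℝ × X | ENNReal.ofReal (Real.exp z.1) < g z.2}.indicator
      (fun z => ENNReal.ofReal (Real.exp (P * z.1))) (s, x) ∂μ := by
    intro s
    have h2 : (fun x => {z : ℝ × X | ENNReal.ofReal (Real.exp z.1) < g z.2}.indicator
        (fun z => ENNReal.ofReal (Real.exp (P * z.1))) (s, x)) =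
        {x | ENNReal.ofReal (Real.exp s) < g x}.indicator
          (fun _ => ENNReal.ofReal (Real.exp (P * s))) := by
      funext x
      by_cases h : ENNReal.ofReal (Real.exp s) < g x
      · rw [indicator_of_mem (by exact h), indicator_of_mem (by exact h)]
      · rw [indicator_of_notMem (by exact h), indicator_of_notMem (by exact h)]
    rw [h2, lintegral_indicator_const (measurableSet_lt measurable_const hg)]
    rw [wdis, dis, mul_comm]
  simp_rw [h1]
  have hsw := lintegral_lintegral_swap (μ := (volume : Measure ℝ)) (ν := μ)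
    (f := fun (s : ℝ) (x : X) => {z : ℝ × X | ENNReal.ofReal (Real.exp z.1) < g z.2}.indicator
      (fun z => ENNReal.ofReal (Real.exp (P * z.1))) (s, x))
    (((hme.comp measurable_fst).indicator hms).aemeasurable)
  rw [hsw]
  rw [← lintegral_const_mul _ (hg.pow_const P)]
  refine lintegral_mono fun x => ?_
  have h3 : (fun s => {z : ℝ × X | ENNReal.ofReal (Real.exp z.1) < g z.2}.indicator
      (fun z => ENNReal.ofReal (Real.exp (P * z.1))) (s, x)) =
      {s | ENNReal.ofReal (Real.exp s) < g x}.indicator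
        (fun s => ENNReal.ofReal (Real.exp (P * s))) := by
    funext s
    by_cases h : ENNReal.ofReal (Real.exp s) < g x
    · rw [indicator_of_mem (by exact h), indicator_of_mem (by exact h)]
    · rw [indicator_of_notMem (by exact h), indicator_of_notMem (by exact h)]
  simp only [h3]
  rw [lintegral_indicator (measurableSet_lt
    (Real.measurable_exp.ennreal_ofReal) measurable_const)]
  exact layer_pow_le (g x) P hP

/-! ### the weight -/

/-- the integral of the weight in one variable -/
theorem lintegral_weight (ep c k : ℝ) (hep : 0 < ep) (hc : c ≠ 0) :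
    ∫⁻ u : ℝ, ENNReal.ofReal (Real.exp (-(ep * |c * u + k|))) =
      ENNReal.ofReal (2 / (ep * |c|)) := by
  have hIoi : IntegrableOn (fun u : ℝ => Real.exp (-(ep * |u|))) (Ioi 0) := by
    refine (integrableOn_exp_mul_Ioi (a := -ep) (by linarith) 0).congr_fun (fun u hu => ?_)
      measurableSet_Ioi
    show Real.exp (-ep * u) = Real.exp (-(ep * |u|))
    rw [abs_of_pos hu, neg_mul]
  have hIic : IntegrableOn (fun u : ℝ => Real.exp (-(ep * |u|))) (Iic 0) := by
    refine (integrableOn_exp_mul_Iic hep 0).congr_fun (fun u hu => ?_) measurableSet_Iic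
    show Real.exp (ep * u) = Real.exp (-(ep * |u|))
    rw [abs_of_nonpos hu]; ring_nf
  have hint1 : Integrable (fun u : ℝ => Real.exp (-(ep * |u|))) := by
    rw [← integrableOn_univ, ← Iic_union_Ioi (a := (0 : ℝ))]
    exact hIic.union hIoi
  have hval1 : ∫ u : ℝ, Real.exp (-(ep * |u|)) = 2 / ep := by
    have h1 := integral_comp_abs (f := fun u : ℝ => Real.exp (-(ep * u)))
    rw [h1]
    have h2 : ∫ u in Ioi (0 : ℝ), Real.exp (-(ep * u)) = 1 / ep := by
      have := integral_exp_mul_Ioi (a := -ep) (by linarith) 0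
      simp only [neg_mul] at this
      rw [this]
      simp
    rw [h2]; ring
  have hint2 : Integrable (fun y : ℝ => Real.exp (-(ep * |y + k|))) := hint1.comp_add_right k
  have hint3 : Integrable (fun u : ℝ => Real.exp (-(ep * |c * u + k|))) :=
    hint2.comp_mul_left' hc
  rw [← ofReal_integral_eq_lintegral_ofReal hint3
    (Filter.Eventually.of_forall fun u => (Real.exp_pos _).le)]
  congr 1
  have h3 := Measure.integral_comp_mul_left (fun y : ℝ => Real.exp (-(ep * |y + k|))) c
  rw [h3, integral_add_right_eq_self (fun y : ℝ => Real.exp (-(ep * |y|))) k, hval1, smul_eq_mul,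
    abs_inv]
  have : |c| ≠ 0 := abs_ne_zero.2 hc
  field_simp

end Pool.Agent.FTX
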