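import Pool.Agent.FTX.Trans

/-!
# FTX, module Cov: finite covers
-/

set_option autoImplicit false

open MeasureTheory Set
open scoped ENNReal NNReal

namespace Pool.Agent.FTX

/-- the estimate for a function which is comparable with a finite sum -/
theorem cover {d L : ℕ} {p a b : ℝ} (hp : 1 ≤ p) (ha : 0 < a) (hb : 0 < b) {T : Set ℝ}
    {C : ℝ≥0∞} {f : Eu d → Eu d → ℝ≥0∞} {F : Fin L → Eu d → Eu d → ℝ≥0∞}
    (hF : ∀ j, Measurable (Function.uncurry (F j))) (h1 : ∀ j x v, F j x v ≤ f x v)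
    (h2 : ∀ x v, f x v ≤ ∑ j, F j x v)
    (hE : ∀ j, (∫⁻ t in T, ∫⁻ x : Eu d, (∫⁻ v : Eu d, F j (x - t • v) v) ^ p) ^ (1 / p) ≤
      C * (∫⁻ v : Eu d, (∫⁻ x : Eu d, F j x v ^ b) ^ (a / b)) ^ (1 / a)) :
    (∫⁻ t in T, ∫⁻ x : Eu d, (∫⁻ v : Eu d, f (x - t • v) v) ^ p) ^ (1 / p) ≤
      (L * C) * (∫⁻ v : Eu d, (∫⁻ x : Eu d, f x v ^ b) ^ (a / b)) ^ (1 / a) := by
  have hp0 : 0 < p := by linarith
  set R : ℝ≥0∞ := (∫⁻ v : Eu d, (∫⁻ x : Eu d, f x v ^ b) ^ (a / b)) ^ (1 / a) with hR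
  have hmono : ∀ j, (∫⁻ v : Eu d, (∫⁻ x : Eu d, F j x v ^ b) ^ (a / b)) ^ (1 / a) ≤ R := by
    intro j
    refine ENNReal.rpow_le_rpow (lintegral_mono fun v => ENNReal.rpow_le_rpow
      (lintegral_mono fun x => ENNReal.rpow_le_rpow (h1 j x v) hb.le) (by positivity))
      (by positivity)
  set ρ : Fin L → ℝ → Eu d → ℝ≥0∞ := fun j t x => ∫⁻ v : Eu d, F j (x - t • v) v with hρ
  have hFm : ∀ j, Measurable fun q : (ℝ × Eu d) × Eu d => F j (q.1.2 - q.1.1 • q.2) q.2 := by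
    intro j
    have h3 : Measurable fun q : (ℝ × Eu d) × Eu d => (q.1.2 - q.1.1 • q.2, q.2) :=
      ((measurable_snd.comp measurable_fst).sub
        ((measurable_fst.comp measurable_fst).smul measurable_snd)).prodMk measurable_snd
    exact (hF j).comp h3
  have hρm : ∀ j, Measurable fun w : ℝ × Eu d => ρ j w.1 w.2 := fun j =>
    (hFm j).lintegral_prod_right'
  have hsum : ∀ t x, (∫⁻ v : Eu d, f (x - t • v) v) ≤ ∑ j, ρ j t x := by
    intro t x
    refine (lintegral_mono fun v => h2 (x - t • v) v).trans ?_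
    rw [lintegral_finset_sum]
    intro j _
    exact (hFm j).comp (f := fun v : Eu d => (((t, x) : ℝ × Eu d), v)) measurable_prodMk_left
  have hpow : ∀ t x, (∫⁻ v : Eu d, f (x - t • v) v) ^ p ≤
      (L : ℝ≥0∞) ^ (p - 1) * ∑ j, ρ j t x ^ p := by
    intro t x
    refine (ENNReal.rpow_le_rpow (hsum t x) hp0.le).trans ?_
    have := ENNReal.rpow_sum_le_const_mul_sum_rpow (s := Finset.univ) (f := fun j => ρ j t x) hp
    simpa using this
  have hint : ∫⁻ t in T, ∫⁻ x : Eu d, (∫⁻ v : Eu d, f (x - t • v) v) ^ p ≤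
      (L : ℝ≥0∞) ^ (p - 1) * ∑ j, ∫⁻ t in T, ∫⁻ x : Eu d, ρ j t x ^ p := by
    refine (lintegral_mono fun t => lintegral_mono fun x => hpow t x).trans (le_of_eq ?_)
    have e1 : ∀ t, ∫⁻ x : Eu d, (L : ℝ≥0∞) ^ (p - 1) * ∑ j, ρ j t x ^ p =
        (L : ℝ≥0∞) ^ (p - 1) * ∑ j, ∫⁻ x : Eu d, ρ j t x ^ p := by
      intro t
      have m1 : ∀ j, Measurable fun x : Eu d => ρ j t x ^ p := fun j =>
        ((hρm j).comp measurable_prodMk_left).pow_const p
      rw [lintegral_const_mul _ (Finset.measurable_sum _ fun j _ => m1 j),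
        lintegral_finset_sum _ fun j _ => m1 j]
    simp only [e1]
    have m2 : ∀ j, Measurable fun t : ℝ => ∫⁻ x : Eu d, ρ j t x ^ p := fun j =>
      ((hρm j).pow_const p).lintegral_prod_right'
    rw [lintegral_const_mul _ (Finset.measurable_sum _ fun j _ => m2 j),
      lintegral_finset_sum _ fun j _ => m2 j]
  have hj : ∀ j, ∫⁻ t in T, ∫⁻ x : Eu d, ρ j t x ^ p ≤ (C * R) ^ p := by
    intro j
    have h3 := (hE j).trans (mul_le_mul_right (hmono j) C)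
    have h4 := ENNReal.rpow_le_rpow h3 hp0.le
    rw [← ENNReal.rpow_mul, one_div_mul_cancel hp0.ne', ENNReal.rpow_one] at h4
    exact h4
  have htot : ∫⁻ t in T, ∫⁻ x : Eu d, (∫⁻ v : Eu d, f (x - t • v) v) ^ p ≤
      ((L : ℝ≥0∞) * C * R) ^ p := by
    refine hint.trans ?_
    refine (mul_le_mul_right (Finset.sum_le_sum fun j _ => hj j) _).trans ?_
    rw [Finset.sum_const, Finset.card_univ, Fintype.card_fin, nsmul_eq_mul, ← mul_assoc]
    rcases Nat.eq_zero_or_pos L with rfl | hL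
    · simp
    · have hL0 : (L : ℝ≥0∞) ≠ 0 := by exact_mod_cast hL.ne'
      have e2 : (L : ℝ≥0∞) ^ (p - 1) * L = (L : ℝ≥0∞) ^ p := by
        nth_rw 2 [← ENNReal.rpow_one (L : ℝ≥0∞)]
        rw [← ENNReal.rpow_add _ _ hL0 (ENNReal.natCast_ne_top L)]
        congr 1
        ring
      rw [e2, ← ENNReal.mul_rpow_of_nonneg _ _ hp0.le, mul_assoc]
  calc _ ≤ (((L : ℝ≥0∞) * C * R) ^ p) ^ (1 / p) := ENNReal.rpow_le_rpow htot (by positivity)
    _ = (L : ℝ≥0∞) * C * R := by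
      rw [← ENNReal.rpow_mul, mul_one_div_cancel hp0.ne', ENNReal.rpow_one]

end Pool.Agent.FTX
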