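import Pool.Agent.FTX.Tri

/-!
# FTX, module Interp: interpolation of two restricted estimates for a positive trilinear form
-/

set_option autoImplicit false

open MeasureTheory Set
open scoped ENNReal NNReal

namespace Pool.Agent.FTX

/-- the constant of a variable -/
noncomputable def Kc (ep c : ℝ) : ℝ≥0∞ := ENNReal.ofReal (2 / (ep * |c|))

/-- the constant for a triple of exponents -/
noncomputable def Mc (ep c1 c2 c3 al be ga : ℝ) : ℝ≥0∞ :=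
  Kc ep c3 ^ (1 - ga) * Kc ep c2 ^ (1 - be) * Kc ep c1 ^ (1 - al)

theorem Kc_pos {ep c : ℝ} (hep : 0 < ep) (hc : c ≠ 0) : Kc ep c ≠ 0 := by
  unfold Kc
  have : 0 < |c| := abs_pos.2 hc
  simp only [ne_eq, ENNReal.ofReal_eq_zero, not_le]
  positivity

theorem Kc_fin (ep c : ℝ) : Kc ep c ≠ ⊤ := ENNReal.ofReal_ne_top

theorem Mc_pos {ep c1 c2 c3 al be ga : ℝ} (hep : 0 < ep) (h1 : c1 ≠ 0) (h2 : c2 ≠ 0)
    (h3 : c3 ≠ 0) : Mc ep c1 c2 c3 al be ga ≠ 0 := by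
  unfold Mc
  refine mul_ne_zero (mul_ne_zero ?_ ?_) ?_
  · exact (ENNReal.rpow_pos (pos_iff_ne_zero.2 (Kc_pos hep h3)) (Kc_fin _ _)).ne'
  · exact (ENNReal.rpow_pos (pos_iff_ne_zero.2 (Kc_pos hep h2)) (Kc_fin _ _)).ne'
  · exact (ENNReal.rpow_pos (pos_iff_ne_zero.2 (Kc_pos hep h1)) (Kc_fin _ _)).ne'

theorem Mc_fin {ep c1 c2 c3 al be ga : ℝ} (h1a : al ≤ 1) (h1b : be ≤ 1) (h1g : ga ≤ 1) :
    Mc ep c1 c2 c3 al be ga ≠ ⊤ := by
  unfold Mc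
  refine ENNReal.mul_ne_top (ENNReal.mul_ne_top ?_ ?_) ?_
  · exact ENNReal.rpow_ne_top_of_nonneg (by linarith) (Kc_fin _ _)
  · exact ENNReal.rpow_ne_top_of_nonneg (by linarith) (Kc_fin _ _)
  · exact ENNReal.rpow_ne_top_of_nonneg (by linarith) (Kc_fin _ _)

private lemma wdis_split {X : Type*} [MeasurableSpace X] (μ : Measure X) (g : X → ℝ≥0∞)
    (P a s : ℝ) (ha : 0 ≤ a) :
    dis μ g s ^ a * ENNReal.ofReal (Real.exp s) =
      wdis μ g P s ^ a * ENNReal.ofReal (Real.exp ((1 - P * a) * s)) := by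
  unfold wdis
  rw [ENNReal.mul_rpow_of_nonneg _ _ ha, ENNReal.ofReal_rpow_of_pos (Real.exp_pos _),
    ← Real.exp_mul, mul_assoc, ← ENNReal.ofReal_mul (Real.exp_pos _).le, ← Real.exp_add]
  congr 3
  ring

section

variable {Z X1 X2 X3 : Type*} [MeasurableSpace Z] [MeasurableSpace X1] [MeasurableSpace X2]
  [MeasurableSpace X3]

/-- the set of the points above the levels -/
def lev (π1 : Z → X1) (π2 : Z → X2) (π3 : Z → X3) (g : X1 → ℝ≥0∞) (h : X2 → ℝ≥0∞)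
    (φ : X3 → ℝ≥0∞) (w : ℝ × ℝ × ℝ) : Set Z :=
  π1 ⁻¹' {x | ENNReal.ofReal (Real.exp w.1) < g x} ∩
    π2 ⁻¹' {x | ENNReal.ofReal (Real.exp w.2.1) < h x} ∩
    π3 ⁻¹' {x | ENNReal.ofReal (Real.exp w.2.2) < φ x}

private lemma step_AB (ζ : Measure Z) [SFinite ζ] {π1 : Z → X1} {π2 : Z → X2} {π3 : Z → X3}
    (hπ1 : Measurable π1) (hπ2 : Measurable π2) (hπ3 : Measurable π3)
    {g : X1 → ℝ≥0∞} {h : X2 → ℝ≥0∞} {φ : X3 → ℝ≥0∞} (hg : Measurable g) (hh : Measurable h)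
    (hφ : Measurable φ) :
    ∫⁻ z, g (π1 z) * h (π2 z) * φ (π3 z) ∂ζ ≤
      ∫⁻ w : ℝ × ℝ × ℝ, ENNReal.ofReal (Real.exp w.1) * ENNReal.ofReal (Real.exp w.2.1) *
        ENNReal.ofReal (Real.exp w.2.2) * ζ (lev π1 π2 π3 g h φ w) := by
  have hE : Measurable fun s : ℝ => ENNReal.ofReal (Real.exp s) :=
    Real.measurable_exp.ennreal_ofReal
  set T : Set (Z × ℝ × ℝ × ℝ) := {y | y.1 ∈ lev π1 π2 π3 g h φ y.2} with hT
  have hTm : MeasurableSet T := by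
    have t1 : MeasurableSet {y : Z × ℝ × ℝ × ℝ | ENNReal.ofReal (Real.exp y.2.1) < g (π1 y.1)} :=
      measurableSet_lt (hE.comp (measurable_fst.comp measurable_snd))
        (hg.comp (hπ1.comp measurable_fst))
    have t2 : MeasurableSet {y : Z × ℝ × ℝ × ℝ | ENNReal.ofReal (Real.exp y.2.2.1) < h (π2 y.1)} :=
      measurableSet_lt (hE.comp (measurable_fst.comp (measurable_snd.comp measurable_snd)))
        (hh.comp (hπ2.comp measurable_fst))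
    have t3 : MeasurableSet {y : Z × ℝ × ℝ × ℝ | ENNReal.ofReal (Real.exp y.2.2.2) < φ (π3 y.1)} :=
      measurableSet_lt (hE.comp (measurable_snd.comp (measurable_snd.comp measurable_snd)))
        (hφ.comp (hπ3.comp measurable_fst))
    exact (t1.inter t2).inter t3
  set c : ℝ × ℝ × ℝ → ℝ≥0∞ := fun w => ENNReal.ofReal (Real.exp w.1) *
    ENNReal.ofReal (Real.exp w.2.1) * ENNReal.ofReal (Real.exp w.2.2) with hc
  have hcm : Measurable c := ((hE.comp measurable_fst).mul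
    (hE.comp (measurable_fst.comp measurable_snd))).mul
    (hE.comp (measurable_snd.comp measurable_snd))
  set K : Z → ℝ × ℝ × ℝ → ℝ≥0∞ := fun z w => T.indicator (fun y => c y.2) (z, w) with hK
  have hKm : Measurable (Function.uncurry K) := (hcm.comp measurable_snd).indicator hTm
  have h1 : ∀ z, g (π1 z) * h (π2 z) * φ (π3 z) ≤ ∫⁻ w, K z w := by
    intro z
    set f1 : ℝ → ℝ≥0∞ := {s | ENNReal.ofReal (Real.exp s) < g (π1 z)}.indicator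
      fun s => ENNReal.ofReal (Real.exp s) with hf1
    set f2 : ℝ → ℝ≥0∞ := {s | ENNReal.ofReal (Real.exp s) < h (π2 z)}.indicator
      fun s => ENNReal.ofReal (Real.exp s) with hf2
    set f3 : ℝ → ℝ≥0∞ := {s | ENNReal.ofReal (Real.exp s) < φ (π3 z)}.indicator
      fun s => ENNReal.ofReal (Real.exp s) with hf3
    have m1 : Measurable f1 := hE.indicator (measurableSet_lt hE measurable_const)
    have m2 : Measurable f2 := hE.indicator (measurableSet_lt hE measurable_const)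
    have m3 : Measurable f3 := hE.indicator (measurableSet_lt hE measurable_const)
    have e1 : ∀ w : ℝ × ℝ × ℝ, K z w = f1 w.1 * (f2 w.2.1 * f3 w.2.2) := by
      intro w
      by_cases hw : z ∈ lev π1 π2 π3 g h φ w
      · have h2 : K z w = c w := indicator_of_mem (by exact hw) _
        obtain ⟨⟨w1, w2⟩, w3⟩ := hw
        have w1' : w.1 ∈ {s : ℝ | ENNReal.ofReal (Real.exp s) < g (π1 z)} := w1
        have w2' : w.2.1 ∈ {s : ℝ | ENNReal.ofReal (Real.exp s) < h (π2 z)} := w2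
        have w3' : w.2.2 ∈ {s : ℝ | ENNReal.ofReal (Real.exp s) < φ (π3 z)} := w3
        have i1 : f1 w.1 = ENNReal.ofReal (Real.exp w.1) := indicator_of_mem w1' _
        have i2 : f2 w.2.1 = ENNReal.ofReal (Real.exp w.2.1) := indicator_of_mem w2' _
        have i3 : f3 w.2.2 = ENNReal.ofReal (Real.exp w.2.2) := indicator_of_mem w3' _
        rw [h2, i1, i2, i3, hc]
        ring
      · have h2 : K z w = 0 := indicator_of_notMem (by exact hw) _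
        rw [h2]
        by_contra hne
        have hne' : f1 w.1 * (f2 w.2.1 * f3 w.2.2) ≠ 0 := fun h => hne h.symm
        have i1 : f1 w.1 ≠ 0 := left_ne_zero_of_mul hne'
        have i23 := right_ne_zero_of_mul hne'
        have i2 : f2 w.2.1 ≠ 0 := left_ne_zero_of_mul i23
        have i3 : f3 w.2.2 ≠ 0 := right_ne_zero_of_mul i23
        have w1' : w.1 ∈ {s : ℝ | ENNReal.ofReal (Real.exp s) < g (π1 z)} :=
          mem_of_indicator_ne_zero i1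
        have w2' : w.2.1 ∈ {s : ℝ | ENNReal.ofReal (Real.exp s) < h (π2 z)} :=
          mem_of_indicator_ne_zero i2
        have w3' : w.2.2 ∈ {s : ℝ | ENNReal.ofReal (Real.exp s) < φ (π3 z)} :=
          mem_of_indicator_ne_zero i3
        exact hw ⟨⟨w1', w2'⟩, w3'⟩
    have e2 : ∫⁻ w, K z w = (∫⁻ s, f1 s) * ((∫⁻ s, f2 s) * ∫⁻ s, f3 s) := by
      simp only [e1]
      have m23 : Measurable fun y : ℝ × ℝ => f2 y.1 * f3 y.2 :=
        (m2.comp measurable_fst).mul (m3.comp measurable_snd)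
      rw [Measure.volume_eq_prod, lintegral_prod_mul (f := f1) (g := fun y : ℝ × ℝ => f2 y.1 * f3 y.2)
        m1.aemeasurable m23.aemeasurable, Measure.volume_eq_prod,
        lintegral_prod_mul m2.aemeasurable m3.aemeasurable]
    rw [e2, mul_assoc]
    have l1 : g (π1 z) ≤ ∫⁻ s, f1 s := by
      rw [hf1, lintegral_indicator (measurableSet_lt hE measurable_const)]; exact layer_le _
    have l2 : h (π2 z) ≤ ∫⁻ s, f2 s := by
      rw [hf2, lintegral_indicator (measurableSet_lt hE measurable_const)]; exact layer_le _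
    have l3 : φ (π3 z) ≤ ∫⁻ s, f3 s := by
      rw [hf3, lintegral_indicator (measurableSet_lt hE measurable_const)]; exact layer_le _
    exact mul_le_mul' l1 (mul_le_mul' l2 l3)
  refine (lintegral_mono h1).trans ?_
  rw [lintegral_lintegral_swap hKm.aemeasurable]
  refine lintegral_mono fun w => ?_
  have h2 : (fun z => K z w) = (lev π1 π2 π3 g h φ w).indicator fun _ => c w := by
    funext z
    by_cases hz : z ∈ lev π1 π2 π3 g h φ w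
    · rw [indicator_of_mem hz]; exact indicator_of_mem (by exact hz) _
    · rw [indicator_of_notMem hz]; exact indicator_of_notMem (by exact hz) _
  have h3 : MeasurableSet (lev π1 π2 π3 g h φ w) :=
    ((hπ1 (measurableSet_lt measurable_const hg)).inter
      (hπ2 (measurableSet_lt measurable_const hh))).inter
      (hπ3 (measurableSet_lt measurable_const hφ))
  rw [h2, lintegral_indicator_const h3]

/-- the normalised case -/
private lemma interp_norm (ζ : Measure Z) [SFinite ζ] (μ1 : Measure X1) [SFinite μ1]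
    (μ2 : Measure X2) [SFinite μ2] (μ3 : Measure X3) [SFinite μ3]
    {π1 : Z → X1} {π2 : Z → X2} {π3 : Z → X3}
    (hπ1 : Measurable π1) (hπ2 : Measurable π2) (hπ3 : Measurable π3)
    (C : ℝ≥0∞) (P1 P2 P3 : ℝ) (hP1 : 1 ≤ P1) (hP2 : 1 ≤ P2) (hP3 : 1 ≤ P3)
    (a0 b0 g0 a1 b1 g1 th c1 c2 c3 ep : ℝ)
    (ha0 : 0 ≤ a0 ∧ a0 ≤ 1) (hb0 : 0 ≤ b0 ∧ b0 ≤ 1) (hg0 : 0 ≤ g0 ∧ g0 ≤ 1)
    (ha1 : 0 ≤ a1 ∧ a1 ≤ 1) (hb1 : 0 ≤ b1 ∧ b1 ≤ 1) (hg1 : 0 ≤ g1 ∧ g1 ≤ 1)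
    (hs0 : a0 + b0 + g0 = 2) (hs1 : a1 + b1 + g1 = 2)
    (hep : 0 < ep) (hth : ep ≤ th) (hth1 : ep ≤ 1 - th) (hc1 : c1 ≠ 0) (hc2 : c2 ≠ 0)
    (hc3 : c3 ≠ 0) (ea0 : 1 - P1 * a0 = th * c1) (eb0 : 1 - P2 * b0 = th * c2)
    (eg0 : 1 - P3 * g0 = th * c3) (ea1 : 1 - P1 * a1 = -(1 - th) * c1)
    (eb1 : 1 - P2 * b1 = -(1 - th) * c2) (eg1 : 1 - P3 * g1 = -(1 - th) * c3)
    (hR0 : ∀ G F S, MeasurableSet G → MeasurableSet F → MeasurableSet S →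
      ζ (π1 ⁻¹' G ∩ π2 ⁻¹' F ∩ π3 ⁻¹' S) ≤ C * (μ1 G ^ a0 * μ2 F ^ b0 * μ3 S ^ g0))
    (hR1 : ∀ G F S, MeasurableSet G → MeasurableSet F → MeasurableSet S →
      ζ (π1 ⁻¹' G ∩ π2 ⁻¹' F ∩ π3 ⁻¹' S) ≤ C * (μ1 G ^ a1 * μ2 F ^ b1 * μ3 S ^ g1))
    {g : X1 → ℝ≥0∞} {h : X2 → ℝ≥0∞} {φ : X3 → ℝ≥0∞} (hg : Measurable g) (hh : Measurable h)
    (hφ : Measurable φ) (ng : ∫⁻ x, g x ^ P1 ∂μ1 ≤ 1) (nh : ∫⁻ x, h x ^ P2 ∂μ2 ≤ 1)
    (nφ : ∫⁻ x, φ x ^ P3 ∂μ3 ≤ 1) :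
    ∫⁻ z, g (π1 z) * h (π2 z) * φ (π3 z) ∂ζ ≤
      C * (Mc ep c1 c2 c3 a0 b0 g0 + Mc ep c1 c2 c3 a1 b1 g1) := by
  set A := wdis μ1 g P1 with hA
  set B := wdis μ2 h P2 with hB
  set D := wdis μ3 φ P3 with hD
  have mA : Measurable A := measurable_wdis μ1 g P1
  have mB : Measurable B := measurable_wdis μ2 h P2
  have mD : Measurable D := measurable_wdis μ3 φ P3
  have hW := measurable_wt ep c1 c2 c3
  set W := wt ep c1 c2 c3 with hWdef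
  have hle : ∀ P : ℝ, 1 ≤ P → ENNReal.ofReal (1 / P) ≤ 1 := by
    intro P hP
    rw [← ENNReal.ofReal_one]
    refine ENNReal.ofReal_le_ofReal ?_
    rw [div_le_one (by linarith)]; exact hP
  have iA : ∫⁻ s, A s ≤ 1 := (lintegral_wdis_le μ1 g hg P1 (by linarith)).trans
    ((mul_le_mul' (hle P1 hP1) ng).trans (by rw [one_mul]))
  have iB : ∫⁻ s, B s ≤ 1 := (lintegral_wdis_le μ2 h hh P2 (by linarith)).trans
    ((mul_le_mul' (hle P2 hP2) nh).trans (by rw [one_mul]))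
  have iD : ∫⁻ s, D s ≤ 1 := (lintegral_wdis_le μ3 φ hφ P3 (by linarith)).trans
    ((mul_le_mul' (hle P3 hP3) nφ).trans (by rw [one_mul]))
  -- the pointwise bound
  have gen : ∀ (al be ga : ℝ), 0 ≤ al → 0 ≤ be → 0 ≤ ga →
      (∀ G F S, MeasurableSet G → MeasurableSet F → MeasurableSet S →
        ζ (π1 ⁻¹' G ∩ π2 ⁻¹' F ∩ π3 ⁻¹' S) ≤ C * (μ1 G ^ al * μ2 F ^ be * μ3 S ^ ga)) →
      ∀ w : ℝ × ℝ × ℝ, ENNReal.ofReal (Real.exp w.1) * ENNReal.ofReal (Real.exp w.2.1) *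
        ENNReal.ofReal (Real.exp w.2.2) * ζ (lev π1 π2 π3 g h φ w) ≤
        C * (A w.1 ^ al * B w.2.1 ^ be * D w.2.2 ^ ga * ENNReal.ofReal (Real.exp
          ((1 - P1 * al) * w.1 + (1 - P2 * be) * w.2.1 + (1 - P3 * ga) * w.2.2))) := by
    intro al be ga hal hbe hga hR w
    have h1 := hR _ _ _ (measurableSet_lt measurable_const hg :
      MeasurableSet {x | ENNReal.ofReal (Real.exp w.1) < g x})
      (measurableSet_lt measurable_const hh :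
      MeasurableSet {x | ENNReal.ofReal (Real.exp w.2.1) < h x})
      (measurableSet_lt measurable_const hφ :
      MeasurableSet {x | ENNReal.ofReal (Real.exp w.2.2) < φ x})
    have k1 := wdis_split μ1 g P1 al w.1 hal
    have k2 := wdis_split μ2 h P2 be w.2.1 hbe
    have k3 := wdis_split μ3 φ P3 ga w.2.2 hga
    have h2 : ζ (lev π1 π2 π3 g h φ w) ≤
        C * (dis μ1 g w.1 ^ al * dis μ2 h w.2.1 ^ be * dis μ3 φ w.2.2 ^ ga) := h1
    calc ENNReal.ofReal (Real.exp w.1) * ENNReal.ofReal (Real.exp w.2.1) *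
        ENNReal.ofReal (Real.exp w.2.2) * ζ (lev π1 π2 π3 g h φ w)
        ≤ ENNReal.ofReal (Real.exp w.1) * ENNReal.ofReal (Real.exp w.2.1) *
          ENNReal.ofReal (Real.exp w.2.2) *
          (C * (dis μ1 g w.1 ^ al * dis μ2 h w.2.1 ^ be * dis μ3 φ w.2.2 ^ ga)) :=
          mul_le_mul_right h2 _
      _ = C * ((dis μ1 g w.1 ^ al * ENNReal.ofReal (Real.exp w.1)) *
          (dis μ2 h w.2.1 ^ be * ENNReal.ofReal (Real.exp w.2.1)) *
          (dis μ3 φ w.2.2 ^ ga * ENNReal.ofReal (Real.exp w.2.2))) := by ring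
      _ = C * (A w.1 ^ al * B w.2.1 ^ be * D w.2.2 ^ ga * ENNReal.ofReal (Real.exp
          ((1 - P1 * al) * w.1 + (1 - P2 * be) * w.2.1 + (1 - P3 * ga) * w.2.2))) := by
          rw [k1, k2, k3, Real.exp_add, Real.exp_add, ENNReal.ofReal_mul (by positivity),
            ENNReal.ofReal_mul (by positivity)]
          ring
  have hpt : ∀ w : ℝ × ℝ × ℝ, ENNReal.ofReal (Real.exp w.1) * ENNReal.ofReal (Real.exp w.2.1) *
        ENNReal.ofReal (Real.exp w.2.2) * ζ (lev π1 π2 π3 g h φ w) ≤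
      C * (A w.1 ^ a0 * B w.2.1 ^ b0 * D w.2.2 ^ g0 * W w +
        A w.1 ^ a1 * B w.2.1 ^ b1 * D w.2.2 ^ g1 * W w) := by
    intro w
    set l := c1 * w.1 + c2 * w.2.1 + c3 * w.2.2 with hl
    have hWw : W w = ENNReal.ofReal (Real.exp (-(ep * |l|))) := rfl
    rcases lt_or_ge l 0 with hneg | hpos
    · refine (gen a0 b0 g0 ha0.1 hb0.1 hg0.1 hR0 w).trans ?_
      refine mul_le_mul_right (le_trans (mul_le_mul_right ?_ _) le_self_add) _
      rw [hWw]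
      refine ENNReal.ofReal_le_ofReal (Real.exp_le_exp.2 ?_)
      rw [ea0, eb0, eg0, abs_of_neg hneg]
      have : th * c1 * w.1 + th * c2 * w.2.1 + th * c3 * w.2.2 = th * l := by rw [hl]; ring
      rw [this]
      nlinarith
    · refine (gen a1 b1 g1 ha1.1 hb1.1 hg1.1 hR1 w).trans ?_
      refine mul_le_mul_right (le_trans (mul_le_mul_right ?_ _) le_add_self) _
      rw [hWw]
      refine ENNReal.ofReal_le_ofReal (Real.exp_le_exp.2 ?_)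
      rw [ea1, eb1, eg1, abs_of_nonneg hpos]
      have : -(1 - th) * c1 * w.1 + -(1 - th) * c2 * w.2.1 + -(1 - th) * c3 * w.2.2 =
          -(1 - th) * l := by rw [hl]; ring
      rw [this]
      nlinarith
  refine (step_AB ζ hπ1 hπ2 hπ3 hg hh hφ).trans ((lintegral_mono hpt).trans ?_)
  have mm : ∀ al be ga : ℝ, Measurable fun w : ℝ × ℝ × ℝ =>
      A w.1 ^ al * B w.2.1 ^ be * D w.2.2 ^ ga * W w := by
    intro al be ga
    exact ((((mA.comp measurable_fst).pow_const al).mul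
      ((mB.comp (measurable_fst.comp measurable_snd)).pow_const be)).mul
      ((mD.comp (measurable_snd.comp measurable_snd)).pow_const ga)).mul hW
  have mms : Measurable fun w : ℝ × ℝ × ℝ =>
      A w.1 ^ a0 * B w.2.1 ^ b0 * D w.2.2 ^ g0 * W w +
        A w.1 ^ a1 * B w.2.1 ^ b1 * D w.2.2 ^ g1 * W w := (mm a0 b0 g0).add (mm a1 b1 g1)
  rw [lintegral_const_mul _ mms, lintegral_add_left (mm a0 b0 g0)]
  refine mul_le_mul_right (add_le_add ?_ ?_) _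
  · refine (tri_holder mA mB mD a0 b0 g0 ep c1 c2 c3 ha0.2 hb0.2 hg0.2 hs0 hep hc1 hc2 hc3).trans ?_
    unfold Mc Kc
    refine mul_le_mul' (mul_le_mul' ?_ ?_) ?_
    · refine ENNReal.rpow_le_rpow ?_ (by linarith [hg0.2])
      calc _ ≤ 1 * 1 * _ := mul_le_mul' (mul_le_mul' iA iB) le_rfl
        _ = _ := by rw [one_mul, one_mul]
    · refine ENNReal.rpow_le_rpow ?_ (by linarith [hb0.2])
      calc _ ≤ 1 * 1 * _ := mul_le_mul' (mul_le_mul' iA iD) le_rfl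
        _ = _ := by rw [one_mul, one_mul]
    · refine ENNReal.rpow_le_rpow ?_ (by linarith [ha0.2])
      calc _ ≤ 1 * 1 * _ := mul_le_mul' (mul_le_mul' iB iD) le_rfl
        _ = _ := by rw [one_mul, one_mul]
  · refine (tri_holder mA mB mD a1 b1 g1 ep c1 c2 c3 ha1.2 hb1.2 hg1.2 hs1 hep hc1 hc2 hc3).trans ?_
    unfold Mc Kc
    refine mul_le_mul' (mul_le_mul' ?_ ?_) ?_
    · refine ENNReal.rpow_le_rpow ?_ (by linarith [hg1.2])
      calc _ ≤ 1 * 1 * _ := mul_le_mul' (mul_le_mul' iA iB) le_rfl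
        _ = _ := by rw [one_mul, one_mul]
    · refine ENNReal.rpow_le_rpow ?_ (by linarith [hb1.2])
      calc _ ≤ 1 * 1 * _ := mul_le_mul' (mul_le_mul' iA iD) le_rfl
        _ = _ := by rw [one_mul, one_mul]
    · refine ENNReal.rpow_le_rpow ?_ (by linarith [ha1.2])
      calc _ ≤ 1 * 1 * _ := mul_le_mul' (mul_le_mul' iB iD) le_rfl
        _ = _ := by rw [one_mul, one_mul]

private lemma norm_scale {X : Type*} [MeasurableSpace X] (μ : Measure X) {g : X → ℝ≥0∞}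
    (hg : Measurable g) (P : ℝ) (hP : 1 ≤ P) (h0 : ∫⁻ x, g x ^ P ∂μ ≠ 0)
    (h1 : ∫⁻ x, g x ^ P ∂μ ≠ ⊤) :
    ∫⁻ x, (g x * ((∫⁻ x, g x ^ P ∂μ) ^ (1 / P))⁻¹) ^ P ∂μ ≤ 1 := by
  have hP0 : 0 < P := by linarith
  have h2 : ∀ x, (g x * ((∫⁻ x, g x ^ P ∂μ) ^ (1 / P))⁻¹) ^ P =
      g x ^ P * (∫⁻ x, g x ^ P ∂μ)⁻¹ := by
    intro x
    rw [ENNReal.mul_rpow_of_nonneg _ _ hP0.le, ENNReal.inv_rpow, ← ENNReal.rpow_mul,
      one_div_mul_cancel hP0.ne', ENNReal.rpow_one]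
  simp only [h2]
  rw [lintegral_mul_const _ (hg.pow_const P), ENNReal.mul_inv_cancel h0 h1]

private lemma null_case (ζ : Measure Z) (μ1 : Measure X1) {π1 : Z → X1} (C : Set X1 → ℝ≥0∞)
    (hnull : ∀ G, MeasurableSet G → μ1 G = 0 → ζ (π1 ⁻¹' G) = 0)
    {g : X1 → ℝ≥0∞} (hg : Measurable g) (P : ℝ) (hP : 1 ≤ P)
    (h0 : ∫⁻ x, g x ^ P ∂μ1 = 0) (k : Z → ℝ≥0∞) :
    ∫⁻ z, g (π1 z) * k z ∂ζ = 0 := by
  have h1 := (lintegral_eq_zero_iff (hg.pow_const P)).1 h0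
  have h2 : μ1 {x | g x ≠ 0} = 0 := by
    rw [Filter.EventuallyEq, ae_iff] at h1
    refine measure_mono_null (fun x hx => ?_) h1
    intro hcon
    have : g x ^ P = 0 := hcon
    rw [ENNReal.rpow_eq_zero_iff] at this
    rcases this with ⟨h, -⟩ | ⟨-, h⟩
    · exact hx h
    · linarith
  have h3 := hnull _ ((measurableSet_singleton 0).compl.preimage hg) h2
  have h4 : (fun z => g (π1 z) * k z) =ᵐ[ζ] fun _ => 0 := by
    rw [Filter.EventuallyEq, ae_iff]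
    refine measure_mono_null (fun z hz => ?_) h3
    intro hcon
    apply hz
    have : g (π1 z) = 0 := hcon
    show g (π1 z) * k z = 0
    rw [this, zero_mul]
  rw [lintegral_congr_ae h4, lintegral_zero]

/-- INTERPOLATION: two restricted estimates give the strong estimate between them -/
theorem interp (ζ : Measure Z) [SFinite ζ] (μ1 : Measure X1) [SFinite μ1]
    (μ2 : Measure X2) [SFinite μ2] (μ3 : Measure X3) [SFinite μ3]
    {π1 : Z → X1} {π2 : Z → X2} {π3 : Z → X3}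
    (hπ1 : Measurable π1) (hπ2 : Measurable π2) (hπ3 : Measurable π3)
    (C : ℝ≥0∞) (hC : C ≠ 0) (P1 P2 P3 : ℝ) (hP1 : 1 ≤ P1) (hP2 : 1 ≤ P2) (hP3 : 1 ≤ P3)
    (a0 b0 g0 a1 b1 g1 th c1 c2 c3 ep : ℝ)
    (ha0 : 0 < a0 ∧ a0 ≤ 1) (hb0 : 0 < b0 ∧ b0 ≤ 1) (hg0 : 0 < g0 ∧ g0 ≤ 1)
    (ha1 : 0 < a1 ∧ a1 ≤ 1) (hb1 : 0 < b1 ∧ b1 ≤ 1) (hg1 : 0 < g1 ∧ g1 ≤ 1)
    (hs0 : a0 + b0 + g0 = 2) (hs1 : a1 + b1 + g1 = 2)
    (hep : 0 < ep) (hth : ep ≤ th) (hth1 : ep ≤ 1 - th) (hc1 : c1 ≠ 0) (hc2 : c2 ≠ 0)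
    (hc3 : c3 ≠ 0) (ea0 : 1 - P1 * a0 = th * c1) (eb0 : 1 - P2 * b0 = th * c2)
    (eg0 : 1 - P3 * g0 = th * c3) (ea1 : 1 - P1 * a1 = -(1 - th) * c1)
    (eb1 : 1 - P2 * b1 = -(1 - th) * c2) (eg1 : 1 - P3 * g1 = -(1 - th) * c3)
    (hR0 : ∀ G F S, MeasurableSet G → MeasurableSet F → MeasurableSet S →
      ζ (π1 ⁻¹' G ∩ π2 ⁻¹' F ∩ π3 ⁻¹' S) ≤ C * (μ1 G ^ a0 * μ2 F ^ b0 * μ3 S ^ g0))
    (hR1 : ∀ G F S, MeasurableSet G → MeasurableSet F → MeasurableSet S →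
      ζ (π1 ⁻¹' G ∩ π2 ⁻¹' F ∩ π3 ⁻¹' S) ≤ C * (μ1 G ^ a1 * μ2 F ^ b1 * μ3 S ^ g1))
    {g : X1 → ℝ≥0∞} {h : X2 → ℝ≥0∞} {φ : X3 → ℝ≥0∞} (hg : Measurable g) (hh : Measurable h)
    (hφ : Measurable φ) :
    ∫⁻ z, g (π1 z) * h (π2 z) * φ (π3 z) ∂ζ ≤
      C * (Mc ep c1 c2 c3 a0 b0 g0 + Mc ep c1 c2 c3 a1 b1 g1) *
        ((∫⁻ x, g x ^ P1 ∂μ1) ^ (1 / P1) * (∫⁻ x, h x ^ P2 ∂μ2) ^ (1 / P2) *
          (∫⁻ x, φ x ^ P3 ∂μ3) ^ (1 / P3)) := by
  have q1 : 0 < 1 / P1 := by positivity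
  have q2 : 0 < 1 / P2 := by positivity
  have q3 : 0 < 1 / P3 := by positivity
  have n1 : ∀ G, MeasurableSet G → μ1 G = 0 → ζ (π1 ⁻¹' G) = 0 := by
    intro G hG h0
    have := hR0 G univ univ hG MeasurableSet.univ MeasurableSet.univ
    rw [h0, ENNReal.zero_rpow_of_pos ha0.1] at this
    simpa using this
  have n2 : ∀ G, MeasurableSet G → μ2 G = 0 → ζ (π2 ⁻¹' G) = 0 := by
    intro G hG h0
    have := hR0 univ G univ MeasurableSet.univ hG MeasurableSet.univ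
    rw [h0, ENNReal.zero_rpow_of_pos hb0.1] at this
    simpa using this
  have n3 : ∀ G, MeasurableSet G → μ3 G = 0 → ζ (π3 ⁻¹' G) = 0 := by
    intro G hG h0
    have := hR0 univ univ G MeasurableSet.univ MeasurableSet.univ hG
    rw [h0, ENNReal.zero_rpow_of_pos hg0.1] at this
    simpa using this
  by_cases z1 : ∫⁻ x, g x ^ P1 ∂μ1 = 0
  · have := null_case ζ μ1 (fun _ => 0) n1 hg P1 hP1 z1 (fun z => h (π2 z) * φ (π3 z))
    simp only [← mul_assoc] at this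
    rw [this]; exact zero_le
  by_cases z2 : ∫⁻ x, h x ^ P2 ∂μ2 = 0
  · have := null_case ζ μ2 (fun _ => 0) n2 hh P2 hP2 z2 (fun z => g (π1 z) * φ (π3 z))
    have e : (fun z => g (π1 z) * h (π2 z) * φ (π3 z)) =
        fun z => h (π2 z) * (g (π1 z) * φ (π3 z)) := by funext z; ring
    rw [e, this]; exact zero_le
  by_cases z3 : ∫⁻ x, φ x ^ P3 ∂μ3 = 0
  · have := null_case ζ μ3 (fun _ => 0) n3 hφ P3 hP3 z3 (fun z => g (π1 z) * h (π2 z))
    have e : (fun z => g (π1 z) * h (π2 z) * φ (π3 z)) =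
        fun z => φ (π3 z) * (g (π1 z) * h (π2 z)) := by funext z; ring
    rw [e, this]; exact zero_le
  set I1 := ∫⁻ x, g x ^ P1 ∂μ1 with hI1
  set I2 := ∫⁻ x, h x ^ P2 ∂μ2 with hI2
  set I3 := ∫⁻ x, φ x ^ P3 ∂μ3 with hI3
  have r1 : I1 ^ (1 / P1) ≠ 0 := by
    rw [ne_eq, ENNReal.rpow_eq_zero_iff_of_pos q1]; exact z1
  have r2 : I2 ^ (1 / P2) ≠ 0 := by
    rw [ne_eq, ENNReal.rpow_eq_zero_iff_of_pos q2]; exact z2
  have r3 : I3 ^ (1 / P3) ≠ 0 := by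
    rw [ne_eq, ENNReal.rpow_eq_zero_iff_of_pos q3]; exact z3
  have hM : C * (Mc ep c1 c2 c3 a0 b0 g0 + Mc ep c1 c2 c3 a1 b1 g1) ≠ 0 := by
    refine mul_ne_zero hC ?_
    intro hcon
    exact Mc_pos hep hc1 hc2 hc3 (add_eq_zero.1 hcon).1
  by_cases t1 : I1 = ⊤
  · rw [t1, ENNReal.top_rpow_of_pos q1, ENNReal.top_mul r2, ENNReal.top_mul r3,
      ENNReal.mul_top hM]
    exact le_top
  by_cases t2 : I2 = ⊤
  · rw [t2, ENNReal.top_rpow_of_pos q2, ENNReal.mul_top r1, ENNReal.top_mul r3,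
      ENNReal.mul_top hM]
    exact le_top
  by_cases t3 : I3 = ⊤
  · rw [t3, ENNReal.top_rpow_of_pos q3, ENNReal.mul_top (mul_ne_zero r1 r2),
      ENNReal.mul_top hM]
    exact le_top
  have s1 : I1 ^ (1 / P1) ≠ ⊤ := ENNReal.rpow_ne_top_of_nonneg q1.le t1
  have s2 : I2 ^ (1 / P2) ≠ ⊤ := ENNReal.rpow_ne_top_of_nonneg q2.le t2
  have s3 : I3 ^ (1 / P3) ≠ ⊤ := ENNReal.rpow_ne_top_of_nonneg q3.le t3
  have key := interp_norm ζ μ1 μ2 μ3 hπ1 hπ2 hπ3 C P1 P2 P3 hP1 hP2 hP3 a0 b0 g0 a1 b1 g1 th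
    c1 c2 c3 ep ⟨ha0.1.le, ha0.2⟩ ⟨hb0.1.le, hb0.2⟩ ⟨hg0.1.le, hg0.2⟩ ⟨ha1.1.le, ha1.2⟩
    ⟨hb1.1.le, hb1.2⟩ ⟨hg1.1.le, hg1.2⟩ hs0 hs1 hep hth hth1 hc1 hc2 hc3 ea0 eb0 eg0 ea1 eb1 eg1
    hR0 hR1 (g := fun x => g x * (I1 ^ (1 / P1))⁻¹) (h := fun x => h x * (I2 ^ (1 / P2))⁻¹)
    (φ := fun x => φ x * (I3 ^ (1 / P3))⁻¹) (hg.mul_const _) (hh.mul_const _) (hφ.mul_const _)
    (norm_scale μ1 hg P1 hP1 z1 t1) (norm_scale μ2 hh P2 hP2 z2 t2)
    (norm_scale μ3 hφ P3 hP3 z3 t3)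
  have e : ∀ z, g (π1 z) * h (π2 z) * φ (π3 z) =
      (g (π1 z) * (I1 ^ (1 / P1))⁻¹ * (h (π2 z) * (I2 ^ (1 / P2))⁻¹) *
        (φ (π3 z) * (I3 ^ (1 / P3))⁻¹)) * (I1 ^ (1 / P1) * I2 ^ (1 / P2) * I3 ^ (1 / P3)) := by
    intro z
    have k1 := ENNReal.inv_mul_cancel r1 s1
    have k2 := ENNReal.inv_mul_cancel r2 s2
    have k3 := ENNReal.inv_mul_cancel r3 s3
    calc g (π1 z) * h (π2 z) * φ (π3 z)
        = g (π1 z) * h (π2 z) * φ (π3 z) * (((I1 ^ (1 / P1))⁻¹ * I1 ^ (1 / P1)) *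
          ((I2 ^ (1 / P2))⁻¹ * I2 ^ (1 / P2)) * ((I3 ^ (1 / P3))⁻¹ * I3 ^ (1 / P3))) := by
          rw [k1, k2, k3]; simp
      _ = _ := by ring
  simp only [e]
  rw [lintegral_mul_const]
  · exact mul_le_mul_left key _
  · exact (((hg.comp hπ1).mul_const _).mul ((hh.comp hπ2).mul_const _)).mul
      ((hφ.comp hπ3).mul_const _)

end

end Pool.Agent.FTX
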