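import Pool.Agent.FTX.Rest
import Pool.Agent.FTX.Interp

/-!
# FTX, module Main: the trilinear estimate and duality
-/

set_option autoImplicit false

open MeasureTheory Set
open scoped ENNReal NNReal

namespace Pool.Agent.FTX

/-- duality: a bound for all test functions bounds the norm -/
theorem dual_norm {W : Type*} [MeasurableSpace W] (μ : Measure W) [SigmaFinite μ]
    {ρ : W → ℝ≥0∞} (hρ : Measurable ρ) (p p' : ℝ) (hp : 1 < p) (hp' : p' = p / (p - 1))
    (K : ℝ≥0∞)
    (hK : ∀ φ : W → ℝ≥0∞, Measurable φ →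
      ∫⁻ w, ρ w * φ w ∂μ ≤ K * (∫⁻ w, φ w ^ p' ∂μ) ^ (1 / p')) :
    (∫⁻ w, ρ w ^ p ∂μ) ^ (1 / p) ≤ K := by
  have hp0 : 0 < p := by linarith
  have hpm : 0 < p - 1 := by linarith
  have hp'0 : 0 < p' := by rw [hp']; positivity
  have e1 : (p - 1) * p' = p := by rw [hp']; field_simp
  have e2 : 1 / p + 1 / p' = 1 := by rw [hp']; field_simp; ring
  set r : ℕ → W → ℝ≥0∞ := fun n w => (spanningSets μ n).indicator (fun w => min (ρ w) n) w with hr
  have hrm : ∀ n, Measurable (r n) := fun n =>
    (hρ.min measurable_const).indicator (measurableSet_spanningSets μ n)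
  have hrle : ∀ n w, r n w ≤ ρ w := by
    intro n w
    simp only [hr]
    by_cases hw : w ∈ spanningSets μ n
    · rw [indicator_of_mem hw]; exact min_le_left _ _
    · rw [indicator_of_notMem hw]; exact zero_le
  have hmono : Monotone r := by
    intro n m hnm w
    simp only [hr]
    by_cases hw : w ∈ spanningSets μ n
    · have hw' : w ∈ spanningSets μ m := monotone_spanningSets μ hnm hw
      rw [indicator_of_mem hw, indicator_of_mem hw']
      exact min_le_min le_rfl (by exact_mod_cast hnm)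
    · rw [indicator_of_notMem hw]; exact zero_le
  have hsup : ∀ w, ⨆ n, r n w = ρ w := by
    intro w
    refine le_antisymm (iSup_le fun n => hrle n w) ?_
    refine le_of_forall_lt fun a ha => ?_
    obtain ⟨b, hab, hb⟩ := exists_between ha
    obtain ⟨n1, hn1⟩ := ENNReal.exists_nat_gt (ne_top_of_lt hb)
    have hun := iUnion_spanningSets μ
    have hw : w ∈ ⋃ i, spanningSets μ i := by rw [hun]; trivial
    obtain ⟨n2, hn2⟩ := mem_iUnion.1 hw
    have h3 : b ≤ r (max n1 n2) w := by
      simp only [hr]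
      rw [indicator_of_mem (monotone_spanningSets μ (le_max_right n1 n2) hn2)]
      refine le_min hb.le (hn1.le.trans ?_)
      exact_mod_cast le_max_left n1 n2
    exact lt_of_lt_of_le hab (h3.trans (le_iSup (fun n => r n w) _))
  have key : ∀ n, ∫⁻ w, r n w ^ p ∂μ ≤ K ^ p := by
    intro n
    set x := ∫⁻ w, r n w ^ p ∂μ with hx
    have hxt : x ≠ ⊤ := by
      have h1 : x ≤ ∫⁻ w, (spanningSets μ n).indicator (fun _ => (n : ℝ≥0∞) ^ p) w ∂μ := by
        refine lintegral_mono fun w => ?_
        simp only [hr]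
        by_cases hw : w ∈ spanningSets μ n
        · rw [indicator_of_mem hw, indicator_of_mem hw]
          exact ENNReal.rpow_le_rpow (min_le_right _ _) hp0.le
        · rw [indicator_of_notMem hw, indicator_of_notMem hw, ENNReal.zero_rpow_of_pos hp0]
      rw [lintegral_indicator_const (measurableSet_spanningSets μ n)] at h1
      refine ne_top_of_le_ne_top (ENNReal.mul_ne_top ?_ (measure_spanningSets_lt_top μ n).ne) h1
      exact ENNReal.rpow_ne_top_of_nonneg hp0.le (ENNReal.natCast_ne_top n)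
    have h2 := hK (fun w => r n w ^ (p - 1)) ((hrm n).pow_const _)
    have h3 : ∀ w, (r n w ^ (p - 1)) ^ p' = r n w ^ p := by
      intro w
      rw [← ENNReal.rpow_mul, e1]
    simp only [h3] at h2
    have h4 : x ≤ K * x ^ (1 / p') := by
      refine le_trans (lintegral_mono fun w => ?_) h2
      have h5 : r n w ^ p = r n w * r n w ^ (p - 1) := by
        conv_rhs => rw [← ENNReal.rpow_one (r n w), ← ENNReal.rpow_mul, one_mul,
          ← ENNReal.rpow_add_of_nonneg _ _ zero_le_one hpm.le]
        congr 1; ring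
      show r n w ^ p ≤ ρ w * r n w ^ (p - 1)
      rw [h5]
      exact mul_le_mul' (hrle n w) le_rfl
    rcases eq_or_ne x 0 with h0 | h0
    · rw [h0]; exact zero_le
    have h6 : x ^ (1 / p') ≠ 0 := by
      rw [ne_eq, ENNReal.rpow_eq_zero_iff_of_pos (by positivity)]; exact h0
    have h7 : x ^ (1 / p') ≠ ⊤ := ENNReal.rpow_ne_top_of_nonneg (by positivity) hxt
    have h8 : x ^ (1 / p) ≤ K := by
      have h9 : x ^ (1 / p) * x ^ (1 / p') ≤ K * x ^ (1 / p') := by
        rw [← ENNReal.rpow_add_of_nonneg _ _ (by positivity) (by positivity), e2,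
          ENNReal.rpow_one]
        exact h4
      exact (ENNReal.mul_le_mul_iff_left h6 h7).1 h9
    calc x = (x ^ (1 / p)) ^ p := by
          rw [← ENNReal.rpow_mul, one_div_mul_cancel hp0.ne', ENNReal.rpow_one]
      _ ≤ K ^ p := ENNReal.rpow_le_rpow h8 hp0.le
  have h10 : ∫⁻ w, ρ w ^ p ∂μ ≤ K ^ p := by
    have h11 : ∀ w, ρ w ^ p = ⨆ n, r n w ^ p := by
      intro w
      rw [← hsup w]
      exact (ENNReal.orderIsoRpow p hp0).map_iSup (fun n => r n w)
    simp only [h11]
    rw [lintegral_iSup (fun n => (hrm n).pow_const p)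
      (fun n m hnm w => ENNReal.rpow_le_rpow (hmono hnm w) hp0.le)]
    exact iSup_le key
  calc (∫⁻ w, ρ w ^ p ∂μ) ^ (1 / p) ≤ (K ^ p) ^ (1 / p) :=
        ENNReal.rpow_le_rpow h10 (by positivity)
    _ = K := by rw [← ENNReal.rpow_mul, mul_one_div_cancel hp0.ne', ENNReal.rpow_one]

end Pool.Agent.FTX
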