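import Mathlib

/-!
# FTX, module Area: change of variables for maps of bounded multiplicity
-/

set_option autoImplicit false

open MeasureTheory Set
open scoped ENNReal NNReal

namespace Pool.Agent.FTX

section

variable {E : Type*} [NormedAddCommGroup E] [NormedSpace ℝ E] [FiniteDimensional ℝ E]
  [MeasurableSpace E] [BorelSpace E]

/-- countably many pieces on which the map is injective -/
private lemma area_part (f : E → E) (s : Set E) (f' : E → E →L[ℝ] E)
    (hf' : ∀ x ∈ s, HasFDerivWithinAt f (f' x) s x) (hdet : ∀ x ∈ s, (f' x).det ≠ 0) :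
    ∃ t : ℕ → Set E, Pairwise (Function.onFun Disjoint t) ∧ (∀ n, MeasurableSet (t n)) ∧
      s ⊆ ⋃ n, t n ∧ ∀ n, InjOn f (s ∩ t n) := by
  have hr : ∀ A : E →L[ℝ] E, ∃ c : ℝ≥0, c ≠ 0 ∧ ∀ h : A.det ≠ 0,
      Subsingleton E ∨
        c < ‖((A.toContinuousLinearEquivOfDetNeZero h).symm : E →L[ℝ] E)‖₊⁻¹ := by
    intro A
    by_cases h : A.det ≠ 0
    · rcases (A.toContinuousLinearEquivOfDetNeZero h).subsingleton_or_nnnorm_symm_pos with h1 | h1
      · exact ⟨1, one_ne_zero, fun _ => Or.inl h1⟩
      · refine ⟨‖((A.toContinuousLinearEquivOfDetNeZero h).symm : E →L[ℝ] E)‖₊⁻¹ / 2, ?_,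
          fun _ => Or.inr ?_⟩
        · exact (half_pos (inv_pos.2 h1)).ne'
        · exact half_lt_self (inv_pos.2 h1)
    · exact ⟨1, one_ne_zero, fun h' => absurd h' h⟩
  choose r r0 hr using hr
  obtain ⟨t, A, t1, t2, t3, t4, t5⟩ :=
    exists_partition_approximatesLinearOn_of_hasFDerivWithinAt f s f' hf' r r0
  refine ⟨t, t1, t2, t3, fun n => ?_⟩
  rcases s.eq_empty_or_nonempty with rfl | hs
  · simp
  obtain ⟨y, hy, hAy⟩ := t5 hs n
  have hA : (A n).det ≠ 0 := by rw [hAy]; exact hdet y hy
  have h1 := t4 n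
  have h2 : ApproximatesLinearOn f
      (((A n).toContinuousLinearEquivOfDetNeZero hA : E ≃L[ℝ] E) : E →L[ℝ] E) (s ∩ t n)
      (r (A n)) := by
    rw [ContinuousLinearMap.coe_toContinuousLinearEquivOfDetNeZero]
    exact h1
  exact h2.injOn (hr (A n) hA)

/-- the area inequality for a map of multiplicity at most `N` -/
theorem area_mult (μ : Measure E) [μ.IsAddHaarMeasure] (f : E → E) (f' : E → E →L[ℝ] E)
    (s : Set E) (hs : MeasurableSet s) (hf' : ∀ x ∈ s, HasFDerivWithinAt f (f' x) s x)
    (hdet : ∀ x ∈ s, (f' x).det ≠ 0) (N : ℕ) (hN : ∀ y, {x ∈ s | f x = y}.encard ≤ N)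
    (g : E → ℝ≥0∞) (hg : Measurable g) :
    ∫⁻ x in s, ENNReal.ofReal |(f' x).det| * g (f x) ∂μ ≤ N * ∫⁻ y, g y ∂μ := by
  classical
  obtain ⟨t, t1, t2, t3, t4⟩ := area_part f s f' hf' hdet
  have hms : ∀ n, MeasurableSet (s ∩ t n) := fun n => hs.inter (t2 n)
  have hd : ∀ n, ∀ x ∈ s ∩ t n, HasFDerivWithinAt f (f' x) (s ∩ t n) x :=
    fun n x hx => (hf' x hx.1).mono inter_subset_left
  have himg : ∀ n, MeasurableSet (f '' (s ∩ t n)) :=
    fun n => measurable_image_of_fderivWithin (hms n) (hd n) (t4 n)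
  have e1 : s = ⋃ n, s ∩ t n := by
    rw [← inter_iUnion]; exact (inter_eq_left.2 t3).symm
  have hdis : Pairwise (Function.onFun Disjoint fun n => s ∩ t n) := by
    intro i j hij
    exact (t1 hij).mono inter_subset_right inter_subset_right
  calc ∫⁻ x in s, ENNReal.ofReal |(f' x).det| * g (f x) ∂μ
      = ∑' n, ∫⁻ x in s ∩ t n, ENNReal.ofReal |(f' x).det| * g (f x) ∂μ := by
        conv_lhs => rw [e1]
        exact lintegral_iUnion hms hdis _
    _ = ∑' n, ∫⁻ y in f '' (s ∩ t n), g y ∂μ := by
        refine tsum_congr fun n => ?_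
        exact (lintegral_image_eq_lintegral_abs_det_fderiv_mul μ (hms n) (hd n) (t4 n) g).symm
    _ = ∑' n, ∫⁻ y, (f '' (s ∩ t n)).indicator g y ∂μ := by
        refine tsum_congr fun n => ?_
        rw [lintegral_indicator (himg n)]
    _ = ∫⁻ y, ∑' n, (f '' (s ∩ t n)).indicator g y ∂μ := by
        rw [lintegral_tsum]
        intro n
        exact (hg.indicator (himg n)).aemeasurable
    _ ≤ ∫⁻ y, N * g y ∂μ := by
        refine lintegral_mono fun y => ?_
        rw [ENNReal.tsum_eq_iSup_sum]
        refine iSup_le fun S => ?_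
        have h1 : ∑ n ∈ S, (f '' (s ∩ t n)).indicator g y =
            ((S.filter fun n => y ∈ f '' (s ∩ t n)).card : ℝ≥0∞) * g y := by
          rw [← nsmul_eq_mul, ← Finset.sum_const, Finset.sum_filter]
          exact Finset.sum_congr rfl fun n _ => by
            by_cases h : y ∈ f '' (s ∩ t n)
            · simp only [indicator_of_mem h, if_pos h]
            · simp only [indicator_of_notMem h, if_neg h]
        rw [h1]
        refine mul_le_mul_left ?_ _
        have h2 : (S.filter fun n => y ∈ f '' (s ∩ t n)).card ≤ N := by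
          set T := S.filter fun n => y ∈ f '' (s ∩ t n) with hT
          have h3 : ∀ n ∈ T, ∃ x, x ∈ s ∩ t n ∧ f x = y := by
            intro n hn
            exact (Finset.mem_filter.1 hn).2
          choose! x hx1 hx2 using h3
          have h4 : InjOn x T := by
            intro i hi j hj hij
            by_contra hne
            have := t1 hne
            exact (Set.disjoint_left.1 this) (hx1 i hi).2 (hij ▸ (hx1 j hj).2)
          have h5 : ((T.image x : Finset E) : Set E) ⊆ {z ∈ s | f z = y} := by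
            intro z hz
            obtain ⟨n, hn, rfl⟩ := Finset.mem_image.1 (Finset.mem_coe.1 hz)
            exact ⟨(hx1 n hn).1, hx2 n hn⟩
          have h6 := (Set.encard_le_encard h5).trans (hN y)
          rw [Set.encard_coe_eq_coe_finsetCard, Finset.card_image_of_injOn h4] at h6
          exact_mod_cast h6
        exact_mod_cast h2
    _ = N * ∫⁻ y, g y ∂μ := lintegral_const_mul _ hg

end

end Pool.Agent.FTX
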