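import Mathlib

/-!
# FTX, module Fib: nondegenerate zeros of a system of polynomials

A system of `d` polynomials of degree at most `k` in `d` real variables has at most `(k + 1) ^ d`
nondegenerate zeros.
-/

set_option autoImplicit false

open Set MvPolynomial Filter Topology

namespace Pool.Agent.FTX

/-- if `x_i ^ K` is a polynomial of smaller degree on a finite set, the set has at most `K ^ d`
points -/
theorem card_zeros_le {d K : ℕ} (Q : Fin d → MvPolynomial (Fin d) ℝ)
    (hQ : ∀ i, (Q i).totalDegree < K) (ep : ℝ) (hep : ep ≠ 0) (Z : Finset (Fin d → ℝ))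
    (hZ : ∀ z ∈ Z, ∀ i, eval z (Q i) + ep * z i ^ K = 0) : Z.card ≤ K ^ d := by
  classical
  set mon : (Fin d → ℕ) → (Z → ℝ) := fun al z => ∏ i, z.1 i ^ al i with hmon
  set W : Submodule ℝ (Z → ℝ) :=
    Submodule.span ℝ (Set.range fun al : Fin d → Fin K => mon fun i => (al i : ℕ)) with hW
  -- all monomials are in `W`
  have h1 : ∀ n : ℕ, ∀ al : Fin d → ℕ, ∑ i, al i = n → mon al ∈ W := by
    intro n
    induction n using Nat.strong_induction_on with
    | _ n ih =>
      intro al hal
      by_cases hsm : ∀ i, al i < K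
      · refine Submodule.subset_span ⟨fun i => ⟨al i, hsm i⟩, ?_⟩
        rfl
      · push Not at hsm
        obtain ⟨i, hi⟩ := hsm
        set al' : Fin d → ℕ := Function.update al i (al i - K) with hal'
        have h2 : mon al = ∑ be ∈ (Q i).support,
            (-ep⁻¹ * (Q i).coeff be) • mon (fun j => al' j + be j) := by
          funext z
          have h3 : mon al z = (∏ j, z.1 j ^ al' j) * z.1 i ^ K := by
            simp only [hmon]
            rw [← Finset.mul_prod_erase Finset.univ _ (Finset.mem_univ i),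
              ← Finset.mul_prod_erase Finset.univ (fun j => z.1 j ^ al' j) (Finset.mem_univ i)]
            have h4 : ∏ j ∈ Finset.univ.erase i, z.1 j ^ al' j =
                ∏ j ∈ Finset.univ.erase i, z.1 j ^ al j := by
              refine Finset.prod_congr rfl fun j hj => ?_
              rw [hal', Function.update_of_ne (Finset.ne_of_mem_erase hj)]
            rw [h4, hal', Function.update_self]
            have h5 : z.1 i ^ al i = z.1 i ^ (al i - K) * z.1 i ^ K := by
              rw [← pow_add, Nat.sub_add_cancel hi]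
            rw [h5]; ring
          have h6 : z.1 i ^ K = -ep⁻¹ * eval z.1 (Q i) := by
            have := hZ z.1 z.2 i
            field_simp
            linarith
          rw [h3, h6, MvPolynomial.eval_eq', Finset.sum_apply, Finset.mul_sum, Finset.mul_sum]
          refine Finset.sum_congr rfl fun be _ => ?_
          simp only [hmon, Pi.smul_apply, smul_eq_mul, pow_add, Finset.prod_mul_distrib]
          ring
        rw [h2]
        refine Submodule.sum_mem _ fun be hbe => Submodule.smul_mem _ _ ?_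
        refine ih (∑ j, (al' j + be j)) ?_ _ rfl
        have h7 : ∑ j, be j < K := by
          have := le_totalDegree hbe
          rw [Finsupp.sum_fintype _ _ (fun _ => rfl)] at this
          exact lt_of_le_of_lt this (hQ i)
        have h8 : ∑ j, al' j + K = n := by
          rw [← hal, hal', ← Finset.add_sum_erase Finset.univ _ (Finset.mem_univ i),
            ← Finset.add_sum_erase Finset.univ al (Finset.mem_univ i)]
          have h9 : ∑ j ∈ Finset.univ.erase i, Function.update al i (al i - K) j =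
              ∑ j ∈ Finset.univ.erase i, al j :=
            Finset.sum_congr rfl fun j hj => by
              rw [Function.update_of_ne (Finset.ne_of_mem_erase hj)]
          rw [h9, Function.update_self]
          omega
        rw [Finset.sum_add_distrib]
        omega
  -- all polynomial functions are in `W`
  have h2 : ∀ p : MvPolynomial (Fin d) ℝ, (fun z : Z => eval z.1 p) ∈ W := by
    intro p
    have h3 : (fun z : Z => eval z.1 p) = ∑ be ∈ p.support, p.coeff be • mon (fun j => be j) := by
      funext z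
      rw [MvPolynomial.eval_eq', Finset.sum_apply]
      rfl
    rw [h3]
    exact Submodule.sum_mem _ fun be _ => Submodule.smul_mem _ _ (h1 _ _ rfl)
  -- interpolation
  have h3 : W = ⊤ := by
    rw [eq_top_iff]
    intro f _
    have h4 : f = ∑ z0 : Z, f z0 • (Pi.single z0 (1 : ℝ) : Z → ℝ) := by
      funext z
      simp [Finset.sum_apply, Pi.single_apply]
    rw [h4]
    refine Submodule.sum_mem _ fun z0 _ => Submodule.smul_mem _ _ ?_
    have h5 : ∀ z : Z, z ≠ z0 → ∃ i, z.1 i ≠ z0.1 i := by
      intro z hz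
      by_contra hcon
      push Not at hcon
      exact hz (Subtype.ext (funext hcon))
    choose ix hix using h5
    set p : MvPolynomial (Fin d) ℝ := ∏ z : Z, if h : z ≠ z0 then
      C ((z0.1 (ix z h) - z.1 (ix z h))⁻¹) * (X (ix z h) - C (z.1 (ix z h))) else 1 with hp
    have h6 : (Pi.single z0 (1 : ℝ) : Z → ℝ) = fun z : Z => eval z.1 p := by
      funext z
      rw [hp, map_prod]
      by_cases hz : z = z0
      · subst hz
        rw [Pi.single_eq_same]
        symm
        refine Finset.prod_eq_one fun w _ => ?_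
        by_cases hw : w ≠ z
        · rw [dif_pos hw]
          simp only [map_mul, eval_C, map_sub, eval_X]
          refine inv_mul_cancel₀ ?_
          exact sub_ne_zero.2 (hix w hw).symm
        · rw [dif_neg hw]; simp
      · rw [Pi.single_eq_of_ne hz]
        symm
        refine Finset.prod_eq_zero (Finset.mem_univ z) ?_
        rw [dif_pos hz]
        simp
    rw [h6]
    exact h2 p
  have h4 : Module.finrank ℝ (Z → ℝ) ≤ Fintype.card (Fin d → Fin K) := by
    have h5 := finrank_range_le_card (R := ℝ) (fun al : Fin d → Fin K => mon fun i => (al i : ℕ))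
    unfold Set.finrank at h5
    rw [← hW, h3, finrank_top] at h5
    exact h5
  simpa using h4

/-- polynomial functions are smooth -/
theorem contDiff_eval {d : ℕ} (p : MvPolynomial (Fin d) ℝ) {n : WithTop ℕ∞} :
    ContDiff ℝ n fun v : Fin d → ℝ => eval v p := by
  induction p using MvPolynomial.induction_on with
  | C a => simpa using contDiff_const
  | add p q hp hq => simpa using hp.add hq
  | mul_X p i hp => simpa using hp.mul (contDiff_apply ℝ ℝ i)

/-- perturbation of nondegenerate zeros -/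
theorem exists_perturb {E : Type*} [NormedAddCommGroup E] [NormedSpace ℝ E] [FiniteDimensional ℝ E]
    (F P : E → E) (hF : ContDiff ℝ 1 F) (hP : ContDiff ℝ 1 P) (Z : Finset E)
    (hZ : ∀ z ∈ Z, F z = 0 ∧ (fderiv ℝ F z).det ≠ 0) :
    ∃ ep : ℝ, ep ≠ 0 ∧ ∃ Z' : Finset E, Z'.card = Z.card ∧ ∀ z ∈ Z', F z + ep • P z = 0 := by
  classical
  have : CompleteSpace E := FiniteDimensional.complete ℝ E
  obtain ⟨U, hU1, hU2⟩ := (Z.finite_toSet).t2_separation
  set Ps : ℝ × E → ℝ × E := fun x => (x.1, F x.2 + x.1 • P x.2) with hPs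
  have key : ∀ z ∈ Z, ∀ᶠ ep in 𝓝 (0 : ℝ), ∃ z' ∈ U z, F z' + ep • P z' = 0 := by
    intro z hz
    obtain ⟨h0, hdet⟩ := hZ z hz
    have hFd : HasStrictFDerivAt F (fderiv ℝ F z) z :=
      hF.contDiffAt.hasStrictFDerivAt one_ne_zero
    have hPd : HasStrictFDerivAt P (fderiv ℝ P z) z :=
      hP.contDiffAt.hasStrictFDerivAt one_ne_zero
    have hs2 : HasStrictFDerivAt (fun x : ℝ × E => x.2) (ContinuousLinearMap.snd ℝ ℝ E)
        ((0 : ℝ), z) := hasStrictFDerivAt_snd
    have hs1 : HasStrictFDerivAt (fun x : ℝ × E => x.1) (ContinuousLinearMap.fst ℝ ℝ E)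
        ((0 : ℝ), z) := hasStrictFDerivAt_fst
    have hF2 : HasStrictFDerivAt (fun x : ℝ × E => F x.2)
        ((fderiv ℝ F z).comp (ContinuousLinearMap.snd ℝ ℝ E)) ((0 : ℝ), z) :=
      HasStrictFDerivAt.comp ((0 : ℝ), z) hFd hs2
    have hP2 : HasStrictFDerivAt (fun x : ℝ × E => P x.2)
        ((fderiv ℝ P z).comp (ContinuousLinearMap.snd ℝ ℝ E)) ((0 : ℝ), z) :=
      HasStrictFDerivAt.comp ((0 : ℝ), z) hPd hs2
    have hD := hs1.prodMk (hF2.add (hs1.smul hP2))
    have hsurj := hD.map_nhds_eq_of_surj (by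
      rw [LinearMap.range_eq_top]
      rintro ⟨a, y⟩
      set L := (fderiv ℝ F z).toContinuousLinearEquivOfDetNeZero hdet with hL
      refine ⟨(a, L.symm (y - a • P z)), ?_⟩
      have hLe : (fderiv ℝ F z) (L.symm (y - a • P z)) = y - a • P z := by
        have h1 : ((L : E ≃L[ℝ] E) : E →L[ℝ] E) = fderiv ℝ F z := by
          rw [hL, ContinuousLinearMap.coe_toContinuousLinearEquivOfDetNeZero]
        rw [← h1]
        exact L.apply_symm_apply _
      refine Prod.ext ?_ ?_
      · simp
      · simp only [map_sub, map_smul] at hLe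
        simp [hLe])
    have hval : Ps ((0 : ℝ), z) = ((0 : ℝ), (0 : E)) := by
      simp [hPs, h0]
    have hnb : Ps '' (univ ×ˢ U z) ∈ 𝓝 ((0 : ℝ), (0 : E)) := by
      rw [← hval]
      have h1 : map Ps (𝓝 ((0 : ℝ), z)) = 𝓝 (Ps ((0 : ℝ), z)) := hsurj
      rw [← h1]
      refine image_mem_map ?_
      exact prod_mem_nhds univ_mem ((hU1 z).2.mem_nhds (hU1 z).1)
    have hcont : Tendsto (fun ep : ℝ => (ep, (0 : E))) (𝓝 0) (𝓝 ((0 : ℝ), (0 : E))) :=
      (Continuous.prodMk_left (0 : E)).tendsto' _ _ rfl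
    filter_upwards [hcont hnb] with ep hep
    obtain ⟨⟨a, z'⟩, ⟨-, hz'⟩, hab⟩ := hep
    simp only [hPs, Prod.mk.injEq] at hab
    obtain ⟨rfl, hab⟩ := hab
    exact ⟨z', hz', hab⟩
  have hall : ∀ᶠ ep in 𝓝 (0 : ℝ), ∀ z ∈ Z, ∃ z' ∈ U z, F z' + ep • P z' = 0 :=
    (Filter.eventually_all_finset Z).2 key
  have hne : ∃ ep : ℝ, ep ≠ 0 ∧ ∀ z ∈ Z, ∃ z' ∈ U z, F z' + ep • P z' = 0 := by
    have h1 : ∀ᶠ ep in 𝓝[≠] (0 : ℝ), ep ∈ ({0}ᶜ : Set ℝ) ∧
        ∀ z ∈ Z, ∃ z' ∈ U z, F z' + ep • P z' = 0 :=
      (eventually_mem_nhdsWithin).and (hall.filter_mono nhdsWithin_le_nhds)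
    obtain ⟨ep, h2, h3⟩ := h1.exists
    exact ⟨ep, h2, h3⟩
  obtain ⟨ep, hep, h⟩ := hne
  choose! w hw1 hw2 using h
  refine ⟨ep, hep, Z.image w, ?_, ?_⟩
  · refine Finset.card_image_of_injOn ?_
    intro x hx y hy hxy
    by_contra hne
    exact (Set.disjoint_left.1 (hU2 hx hy hne)) (hw1 x hx) (hxy ▸ hw1 y hy)
  · intro z hz
    obtain ⟨x, hx, rfl⟩ := Finset.mem_image.1 hz
    exact hw2 x hx

/-- a system of `d` polynomials of degree at most `k` has at most `(k + 1) ^ d` nondegenerate
zeros -/
theorem encard_nondeg {d k : ℕ} (Q : Fin d → MvPolynomial (Fin d) ℝ)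
    (hQ : ∀ i, (Q i).totalDegree ≤ k) :
    {v : Fin d → ℝ | (fun i => eval v (Q i)) = 0 ∧
      (fderiv ℝ (fun v : Fin d → ℝ => fun i => eval v (Q i)) v).det ≠ 0}.encard ≤
      ((k + 1) ^ d : ℕ) := by
  classical
  by_contra hcon
  push Not at hcon
  obtain ⟨t, ht1, ht2⟩ := Set.exists_subset_encard_eq (Order.add_one_le_of_lt hcon)
  have hfin : t.Finite := by
    refine Set.finite_of_encard_eq_coe (k := (k + 1) ^ d + 1) ?_
    rw [ht2]; push_cast; rfl
  set Z := hfin.toFinset with hZdef
  have hcard : Z.card = (k + 1) ^ d + 1 := by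
    have h1 : (Z.card : ℕ∞) = t.encard := by
      rw [← Set.encard_coe_eq_coe_finsetCard, hZdef, hfin.coe_toFinset]
    rw [ht2] at h1
    exact_mod_cast h1
  have hF : ContDiff ℝ 1 (fun v : Fin d → ℝ => fun i => eval v (Q i)) :=
    contDiff_pi.2 fun i => contDiff_eval (Q i)
  have hP : ContDiff ℝ 1 (fun v : Fin d → ℝ => fun i => v i ^ (k + 1)) :=
    contDiff_pi.2 fun i => (contDiff_apply ℝ ℝ i).pow _
  obtain ⟨ep, hep, Z', hZ'1, hZ'2⟩ := exists_perturb _ _ hF hP Z (by
    intro z hz
    exact ht1 (hfin.mem_toFinset.1 hz))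
  have h2 := card_zeros_le (K := k + 1) Q (fun i => Nat.lt_succ_of_le (hQ i)) ep hep Z' (by
    intro z hz i
    have := congrFun (hZ'2 z hz) i
    simpa using this)
  rw [hZ'1, hcard] at h2
  omega

end Pool.Agent.FTX
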