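import Pool.Agent.FTX.Res

/-!
# FTX, module Parts: the part with a small and the part with a large Jacobian
-/

set_option autoImplicit false

open MeasureTheory Set
open scoped ENNReal NNReal

namespace Pool.Agent.FTX

section

variable {Y : Type*} [MeasurableSpace Y] {η : Measure Y} [SFinite η] {d N : ℕ} {T : Set ℝ}
  {c : Y → Eu d → Eu d} {M : Y → Eu d → Matrix (Fin d) (Fin d) ℝ}

private lemma meas_JG (h : FDat η d N T c M) {G : Set Y} {F : Set (Eu d)}
    (hG : MeasurableSet G) (hF : MeasurableSet F) {B : Set ℝ} (hB : MeasurableSet B) :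
    MeasurableSet {x : Y × ℝ × Eu d | x.1 ∈ G ∧ x.2.2 ∈ F ∧ Jd M x ∈ B} :=
  (measurable_fst hG).inter (((measurable_snd.comp measurable_snd) hF).inter (h.measurable_Jd hB))

/-- the small part -/
theorem FDat.small (h : FDat η d N T c M) (hd : 1 ≤ d) (q : ℝ) (hq : 1 < q) {G : Set Y}
    {F : Set (Eu d)} {S : Set (ℝ × Eu d)} (hG : MeasurableSet G) (hF : MeasurableSet F)
    (hS : MeasurableSet S) (kap : ℝ) (hk : 0 < kap) :
    zet η d T {x | x.1 ∈ G ∧ x.2.2 ∈ F ∧ |Jd M x| < kap ∧ pos c x ∈ S} ≤
      (η G * volume F * ENNReal.ofReal (2 * d * kap ^ ((1 : ℝ) / d))) ^ (1 / q) *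
        (volume F * mu3 d T S) ^ (1 - 1 / q) := by
  have hq0 : 0 < q := by linarith
  have e1 : 0 ≤ 1 / q := by positivity
  have e2 : 0 ≤ 1 - 1 / q := by
    rw [sub_nonneg, div_le_one hq0]; exact hq.le
  set U : Set (Y × ℝ × Eu d) := {x | x.1 ∈ G ∧ x.2.2 ∈ F ∧ |Jd M x| < kap} with hU
  set A : Set (Y × ℝ × Eu d) := {x | x.1 ∈ G ∧ x.2.2 ∈ F ∧ |Jd M x| < kap ∧ pos c x ∈ S} with hA
  have hUm : MeasurableSet U :=
    meas_JG h hG hF (B := {r : ℝ | |r| < kap}) (measurableSet_lt measurable_abs measurable_const)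
  have hAm : MeasurableSet A := by
    have : A = U ∩ (pos c) ⁻¹' S := by
      ext x; simp only [hA, hU, mem_ofPred_eq, mem_inter_iff, mem_preimage]; tauto
    rw [this]
    exact hUm.inter (h.measurable_pos hS)
  -- slices
  set X : ℝ × Eu d → ℝ≥0∞ := fun p => η ((fun y => (y, p)) ⁻¹' U) with hX
  set V : ℝ × Eu d → ℝ≥0∞ := fun p => F.indicator 1 p.2 * volume (Prod.mk p.1 ⁻¹' S) with hV
  have hXm : Measurable X := measurable_measure_prodMk_right hUm
  have hVm : Measurable V := by
    refine Measurable.mul ?_ ?_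
    · exact (measurable_one.indicator hF).comp measurable_snd
    · exact (measurable_measure_prodMk_left hS).comp measurable_fst
  have hmp : ∀ᵐ p ∂(mu3 d T), ∀ S : Set (Eu d), MeasurableSet S →
      η {y | c y p.2 ∈ S} ≤ volume S :=
    (Measure.quasiMeasurePreserving_snd (μ := volume.restrict T)
      (ν := (volume : Measure (Eu d)))).ae h.mp
  have hsl : ∀ᵐ p ∂(mu3 d T), η ((fun y => (y, p)) ⁻¹' A) ≤ X p ^ (1 / q) * V p ^ (1 - 1 / q) := by
    filter_upwards [hmp] with p hp
    have k1 : η ((fun y => (y, p)) ⁻¹' A) ≤ X p :=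
      measure_mono fun y hy => ⟨hy.1, hy.2.1, hy.2.2.1⟩
    have k2 : η ((fun y => (y, p)) ⁻¹' A) ≤ V p := by
      by_cases hpF : p.2 ∈ F
      · have h1 : V p = volume (Prod.mk p.1 ⁻¹' S) := by
          simp only [hV, indicator_of_mem hpF, Pi.one_apply, one_mul]
        set S' : Set (Eu d) := (fun x => x + p.1 • p.2) ⁻¹' (Prod.mk p.1 ⁻¹' S) with hS'
        have h2 : MeasurableSet (Prod.mk p.1 ⁻¹' S) := measurable_prodMk_left hS
        have h3 : MeasurableSet S' := (measurable_add_const _) h2
        have h4 : volume S' = volume (Prod.mk p.1 ⁻¹' S) := measure_preimage_add_right _ _ _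
        rw [h1, ← h4]
        refine le_trans (measure_mono fun y hy => ?_) (hp S' h3)
        exact hy.2.2.2
      · have h1 : (fun y => (y, p)) ⁻¹' A = (∅ : Set Y) := by
          ext y
          simp only [mem_preimage, mem_empty_iff_false, iff_false]
          intro hy
          exact hpF hy.2.1
        rw [h1, measure_empty]
        exact zero_le
    calc η ((fun y => (y, p)) ⁻¹' A)
        = η ((fun y => (y, p)) ⁻¹' A) ^ (1 / q) * η ((fun y => (y, p)) ⁻¹' A) ^ (1 - 1 / q) := by
          rw [← ENNReal.rpow_add_of_nonneg _ _ e1 e2]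
          simp
      _ ≤ X p ^ (1 / q) * V p ^ (1 - 1 / q) :=
          mul_le_mul' (ENNReal.rpow_le_rpow k1 e1) (ENNReal.rpow_le_rpow k2 e2)
  have iX : ∫⁻ p, X p ∂(mu3 d T) ≤
      η G * volume F * ENNReal.ofReal (2 * d * kap ^ ((1 : ℝ) / d)) := by
    have h1 : ∫⁻ p, X p ∂(mu3 d T) = (η.prod (mu3 d T)) U := (Measure.prod_apply_symm hUm).symm
    rw [h1, Measure.prod_apply hUm]
    have h2 : ∀ y, (mu3 d T) (Prod.mk y ⁻¹' U) ≤ G.indicator (fun _ => volume F *
        ENNReal.ofReal (2 * d * kap ^ ((1 : ℝ) / d))) y := by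
      intro y
      by_cases hy : y ∈ G
      · rw [indicator_of_mem hy]
        have hm : MeasurableSet (Prod.mk y ⁻¹' U : Set (ℝ × Eu d)) := measurable_prodMk_left hUm
        rw [mu3, Measure.prod_apply_symm hm]
        have h3 : ∀ v : Eu d, (volume.restrict T) ((fun t : ℝ => (t, v)) ⁻¹' (Prod.mk y ⁻¹' U)) ≤
            F.indicator (fun _ => ENNReal.ofReal (2 * d * kap ^ ((1 : ℝ) / d))) v := by
          intro v
          by_cases hv : v ∈ F
          · rw [indicator_of_mem hv]
            refine (Measure.restrict_apply_le _ _).trans ?_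
            refine le_trans (measure_mono ?_) (sublevel_det hd (M y v) kap hk)
            intro t ht
            exact ht.2.2
          · rw [indicator_of_notMem hv]
            have h4 : (fun t : ℝ => (t, v)) ⁻¹' (Prod.mk y ⁻¹' U) = (∅ : Set ℝ) := by
              ext t
              simp only [mem_preimage, mem_empty_iff_false, iff_false]
              intro ht
              exact hv ht.2.1
            rw [h4, measure_empty]
        refine (lintegral_mono h3).trans ?_
        rw [lintegral_indicator_const hF, mul_comm]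
      · rw [indicator_of_notMem hy]
        have h4 : Prod.mk y ⁻¹' U = (∅ : Set (ℝ × Eu d)) := by
          ext p
          simp only [mem_preimage, mem_empty_iff_false, iff_false]
          intro hp
          exact hy hp.1
        rw [h4, measure_empty]
    refine (lintegral_mono h2).trans ?_
    rw [lintegral_indicator_const hG]
    exact le_of_eq (by ring)
  have iV : ∫⁻ p, V p ∂(mu3 d T) = volume F * mu3 d T S := by
    rw [mu3, lintegral_prod _ hVm.aemeasurable, Measure.prod_apply hS]
    have h1 : ∀ t : ℝ, ∫⁻ v : Eu d, V (t, v) = volume F * volume (Prod.mk t ⁻¹' S) := by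
      intro t
      simp only [hV]
      rw [lintegral_mul_const _ (measurable_one.indicator hF), lintegral_indicator_one hF]
    simp only [h1]
    rw [lintegral_const_mul _ (measurable_measure_prodMk_left hS)]
  calc zet η d T A = ∫⁻ p, η ((fun y => (y, p)) ⁻¹' A) ∂(mu3 d T) := by
        rw [zet, Measure.prod_apply_symm hAm]
    _ ≤ ∫⁻ p, X p ^ (1 / q) * V p ^ (1 - 1 / q) ∂(mu3 d T) := lintegral_mono_ae hsl
    _ ≤ (∫⁻ p, X p ∂(mu3 d T)) ^ (1 / q) * (∫⁻ p, V p ∂(mu3 d T)) ^ (1 - 1 / q) :=
        ENNReal.lintegral_mul_norm_pow_le hXm.aemeasurable hVm.aemeasurable e1 e2 (by ring)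
    _ ≤ _ := by
        rw [iV]
        exact mul_le_mul' (ENNReal.rpow_le_rpow iX e1) le_rfl

/-- the large part -/
theorem FDat.large (h : FDat η d N T c M) (hd : 1 ≤ d) (q : ℝ) (hq : 1 + 1 / (d : ℝ) < q)
    {G : Set Y} {F : Set (Eu d)} {S : Set (ℝ × Eu d)} (hG : MeasurableSet G)
    (hF : MeasurableSet F) (hS : MeasurableSet S) (kap : ℝ) (hk : 0 < kap) :
    zet η d T {x | x.1 ∈ G ∧ x.2.2 ∈ F ∧ kap ≤ |Jd M x| ∧ pos c x ∈ S} ≤
      (N * η G * mu3 d T S) ^ (1 - 1 / q) *
        (η G * volume F * ENNReal.ofReal (2 * d * 2 ^ ((1 : ℝ) / d) /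
          (1 - 2 ^ ((1 : ℝ) / d + 1 - q)) * kap ^ ((1 : ℝ) / d + 1 - q))) ^ (1 / q) := by
  have hd0 : (0 : ℝ) < d := by exact_mod_cast hd
  have hdi : 0 < 1 / (d : ℝ) := by positivity
  have hq1 : 1 < q := by linarith
  have hq0 : 0 < q := by linarith
  have e1 : 0 ≤ 1 / q := by positivity
  have e2 : 0 ≤ 1 - 1 / q := by
    rw [sub_nonneg, div_le_one hq0]; exact hq1.le
  set W : Set (Y × ℝ × Eu d) := {x | x.1 ∈ G ∧ Jd M x ≠ 0 ∧ pos c x ∈ S} with hW
  set U : Set (Y × ℝ × Eu d) := {x | x.1 ∈ G ∧ x.2.2 ∈ F ∧ kap ≤ |Jd M x|} with hU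
  set A : Set (Y × ℝ × Eu d) := {x | x.1 ∈ G ∧ x.2.2 ∈ F ∧ kap ≤ |Jd M x| ∧ pos c x ∈ S} with hA
  have hUm : MeasurableSet U :=
    meas_JG h hG hF (B := {r : ℝ | kap ≤ |r|}) (measurableSet_le measurable_const measurable_abs)
  have hWm : MeasurableSet W :=
    (measurable_fst hG).inter (((h.measurable_Jd (measurableSet_singleton 0)).compl).inter
      (h.measurable_pos hS))
  have hAm : MeasurableSet A := by
    have : A = U ∩ (pos c) ⁻¹' S := by
      ext x; simp only [hA, hU, mem_ofPred_eq, mem_inter_iff, mem_preimage]; tauto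
    rw [this]
    exact hUm.inter (h.measurable_pos hS)
  set f : Y × ℝ × Eu d → ℝ≥0∞ := W.indicator fun x => ENNReal.ofReal |Jd M x| with hf
  set g : Y × ℝ × Eu d → ℝ≥0∞ := U.indicator fun x => ENNReal.ofReal (|Jd M x| ^ (1 - q)) with hg
  have hJ : Measurable fun x : Y × ℝ × Eu d => |Jd M x| := measurable_abs.comp h.measurable_Jd
  have hfm : Measurable f := hJ.ennreal_ofReal.indicator hWm
  have hgm : Measurable g := (hJ.pow_const _).ennreal_ofReal.indicator hUm
  have hpt : ∀ x, A.indicator (1 : Y × ℝ × Eu d → ℝ≥0∞) x ≤ f x ^ (1 - 1 / q) * g x ^ (1 / q) := by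
    intro x
    by_cases hx : x ∈ A
    · have h0 : 0 < |Jd M x| := lt_of_lt_of_le hk hx.2.2.1
      have hxW : x ∈ W := ⟨hx.1, abs_pos.1 h0, hx.2.2.2⟩
      have hxU : x ∈ U := ⟨hx.1, hx.2.1, hx.2.2.1⟩
      rw [indicator_of_mem hx]
      have f1 : f x = ENNReal.ofReal |Jd M x| := indicator_of_mem hxW _
      have g1 : g x = ENNReal.ofReal (|Jd M x| ^ (1 - q)) := indicator_of_mem hxU _
      rw [f1, g1, ENNReal.ofReal_rpow_of_pos h0,
        ENNReal.ofReal_rpow_of_pos (Real.rpow_pos_of_pos h0 _), ← Real.rpow_mul h0.le,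
        ← ENNReal.ofReal_mul (Real.rpow_nonneg h0.le _), ← Real.rpow_add h0]
      have : 1 - 1 / q + (1 - q) * (1 / q) = 0 := by field_simp; ring
      rw [this, Real.rpow_zero, ENNReal.ofReal_one]
      rfl
    · rw [indicator_of_notMem hx]
      exact zero_le
  have i_f : ∫⁻ x, f x ∂(zet η d T) ≤ N * η G * mu3 d T S := by
    rw [zet, lintegral_prod _ hfm.aemeasurable]
    have h1 : ∀ y, ∫⁻ p, f (y, p) ∂(mu3 d T) ≤ G.indicator (fun _ => N * mu3 d T S) y := by
      intro y
      have hfy : Measurable fun p : ℝ × Eu d => f (y, p) := hfm.comp measurable_prodMk_left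
      by_cases hy : y ∈ G
      · rw [indicator_of_mem hy]
        rw [mu3, lintegral_prod _ hfy.aemeasurable, Measure.prod_apply hS,
          ← lintegral_const_mul _ (measurable_measure_prodMk_left hS)]
        refine lintegral_mono_ae ?_
        filter_upwards [ae_restrict_mem h.mT] with t ht
        have h2 : MeasurableSet (Prod.mk t ⁻¹' S : Set (Eu d)) := measurable_prodMk_left hS
        have h3 := h.area y ht (ψ := (Prod.mk t ⁻¹' S).indicator 1) (measurable_one.indicator h2)
        rw [lintegral_indicator_one h2] at h3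
        refine le_trans (le_of_eq ?_) h3
        have hJs : MeasurableSet {v : Eu d | Jd M (y, t, v) ≠ 0} :=
          ((h.measurable_Jd.comp (measurable_prodMk_left.comp measurable_prodMk_left))
            (measurableSet_singleton 0)).compl
        rw [← lintegral_indicator hJs]
        refine lintegral_congr fun v => ?_
        by_cases hv : (y, t, v) ∈ W
        · have hv1 : v ∈ {v : Eu d | Jd M (y, t, v) ≠ 0} := hv.2.1
          have hv2 : c y v + t • v ∈ (Prod.mk t ⁻¹' S : Set (Eu d)) := hv.2.2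
          rw [indicator_of_mem hv1, indicator_of_mem hv2]
          simp only [hf, indicator_of_mem hv, Pi.one_apply, mul_one]
        · have f0 : f (y, t, v) = 0 := indicator_of_notMem hv _
          rw [f0]
          by_cases hv1 : v ∈ {v : Eu d | Jd M (y, t, v) ≠ 0}
          · have hv2 : c y v + t • v ∉ (Prod.mk t ⁻¹' S : Set (Eu d)) := fun h' =>
              hv ⟨hy, hv1, h'⟩
            rw [indicator_of_mem hv1, indicator_of_notMem hv2, mul_zero]
          · rw [indicator_of_notMem hv1]
      · rw [indicator_of_notMem hy]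
        have h2 : ∀ p : ℝ × Eu d, f (y, p) = 0 := fun p =>
          indicator_of_notMem (fun hp => hy hp.1) _
        simp only [h2, lintegral_zero, le_refl]
    refine (lintegral_mono h1).trans ?_
    rw [lintegral_indicator_const hG]
    exact le_of_eq (by ring)
  have i_g : ∫⁻ x, g x ∂(zet η d T) ≤ η G * volume F * ENNReal.ofReal (2 * d *
      2 ^ ((1 : ℝ) / d) / (1 - 2 ^ ((1 : ℝ) / d + 1 - q)) * kap ^ ((1 : ℝ) / d + 1 - q)) := by
    set K : ℝ≥0∞ := ENNReal.ofReal (2 * d * 2 ^ ((1 : ℝ) / d) /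
      (1 - 2 ^ ((1 : ℝ) / d + 1 - q)) * kap ^ ((1 : ℝ) / d + 1 - q)) with hK
    rw [zet, lintegral_prod _ hgm.aemeasurable]
    have h1 : ∀ y, ∫⁻ p, g (y, p) ∂(mu3 d T) ≤ G.indicator (fun _ => volume F * K) y := by
      intro y
      have hgy : Measurable fun p : ℝ × Eu d => g (y, p) := hgm.comp measurable_prodMk_left
      by_cases hy : y ∈ G
      · rw [indicator_of_mem hy]
        rw [mu3, lintegral_prod_symm _ hgy.aemeasurable]
        have h2 : ∀ v : Eu d, ∫⁻ t in T, g (y, t, v) ≤ F.indicator (fun _ => K) v := by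
          intro v
          by_cases hv : v ∈ F
          · rw [indicator_of_mem hv]
            have hJt : Measurable fun t : ℝ => Jd M (y, t, v) :=
              h.measurable_Jd.comp (measurable_prodMk_left.comp measurable_prodMk_right)
            have h3 := neg_power hJt (2 * d) (1 / d) q kap (by positivity) hdi hq hk
              (fun lam hl => sublevel_det hd (M y v) lam hl)
            refine (setLIntegral_le_lintegral _ _).trans (le_trans (le_of_eq ?_) h3)
            have hms : MeasurableSet {t : ℝ | kap ≤ |Jd M (y, t, v)|} :=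
              measurableSet_le measurable_const (measurable_abs.comp hJt)
            rw [← lintegral_indicator hms]
            refine lintegral_congr fun t => ?_
            by_cases ht : kap ≤ |Jd M (y, t, v)|
            · have ht1 : (y, t, v) ∈ U := ⟨hy, hv, ht⟩
              have ht2 : t ∈ {t : ℝ | kap ≤ |Jd M (y, t, v)|} := ht
              rw [indicator_of_mem ht2]
              simp only [hg, indicator_of_mem ht1]
            · have ht1 : (y, t, v) ∉ U := fun h' => ht h'.2.2
              have ht2 : t ∉ {t : ℝ | kap ≤ |Jd M (y, t, v)|} := ht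
              rw [indicator_of_notMem ht2]
              simp only [hg, indicator_of_notMem ht1]
          · rw [indicator_of_notMem hv]
            have h2 : ∀ t : ℝ, g (y, t, v) = 0 := fun t =>
              indicator_of_notMem (fun hp => hv hp.2.1) _
            simp only [h2, lintegral_zero, le_refl]
        refine (lintegral_mono h2).trans ?_
        rw [lintegral_indicator_const hF, mul_comm]
      · rw [indicator_of_notMem hy]
        have h2 : ∀ p : ℝ × Eu d, g (y, p) = 0 := fun p =>
          indicator_of_notMem (fun hp => hy hp.1) _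
        simp only [h2, lintegral_zero, le_refl]
    refine (lintegral_mono h1).trans ?_
    rw [lintegral_indicator_const hG]
    exact le_of_eq (by ring)
  calc zet η d T A = ∫⁻ x, A.indicator 1 x ∂(zet η d T) := (lintegral_indicator_one hAm).symm
    _ ≤ ∫⁻ x, f x ^ (1 - 1 / q) * g x ^ (1 / q) ∂(zet η d T) := lintegral_mono hpt
    _ ≤ (∫⁻ x, f x ∂(zet η d T)) ^ (1 - 1 / q) * (∫⁻ x, g x ∂(zet η d T)) ^ (1 / q) :=
        ENNReal.lintegral_mul_norm_pow_le hfm.aemeasurable hgm.aemeasurable e2 e1 (by ring)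
    _ ≤ _ := mul_le_mul' (ENNReal.rpow_le_rpow i_f e2) (ENNReal.rpow_le_rpow i_g e1)

end

end Pool.Agent.FTX
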