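import Pool.Agent.FTX.Trans
import Pool.Agent.FTX.Fib

/-!
# FTX, module Poly: families of differentiable and of polynomial maps
-/

set_option autoImplicit false

open MeasureTheory Set Filter Topology
open scoped ENNReal NNReal

namespace Pool.Agent.FTX

/-- the matrix of the derivative -/
noncomputable def Mt {Y : Type*} {d : ℕ} (c : Y → Eu d → Eu d) (y : Y) (v : Eu d) :
    Matrix (Fin d) (Fin d) ℝ := LinearMap.toMatrix' (fderiv ℝ (c y) v : Eu d →ₗ[ℝ] Eu d)

theorem Lm_Mt {Y : Type*} {d : ℕ} (c : Y → Eu d → Eu d) (y : Y) (v : Eu d) :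
    Lm (Mt c y v) = fderiv ℝ (c y) v := by
  ext w i
  simp [Lm, Mt]

theorem det_Mt {Y : Type*} {d : ℕ} (c : Y → Eu d → Eu d) (y : Y) (v : Eu d) (t : ℝ) :
    (Mt c y v + t • (1 : Matrix (Fin d) (Fin d) ℝ)).det =
      (fderiv ℝ (c y) v + t • ContinuousLinearMap.id ℝ (Eu d)).det := by
  rw [← det_Lm]
  congr 1
  rw [← Lm_Mt c y v]
  ext w i
  simp [Lm]

theorem measurable_Mt {Y : Type*} [MeasurableSpace Y] {d : ℕ} {c : Y → Eu d → Eu d}
    (mc : Measurable fun p : Y × Eu d => c p.1 p.2) (hc : ∀ y, Differentiable ℝ (c y))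
    (i j : Fin d) : Measurable fun p : Y × Eu d => Mt c p.1 p.2 i j := by
  have h1 : ∀ p : Y × Eu d, Mt c p.1 p.2 i j = fderiv ℝ (c p.1) p.2 (Pi.single j 1) i := by
    intro p
    rw [Mt, LinearMap.toMatrix'_apply]
    rfl
  simp only [h1]
  have h2 : ∀ n : ℕ, Measurable fun p : Y × Eu d =>
      (((n : ℝ) + 1) • (c p.1 (p.2 + ((n : ℝ) + 1)⁻¹ • (Pi.single j (1 : ℝ) : Eu d)) -
        c p.1 p.2)) i := by
    intro n
    have h3 : Measurable fun p : Y × Eu d =>
        c p.1 (p.2 + ((n : ℝ) + 1)⁻¹ • (Pi.single j (1 : ℝ) : Eu d)) := by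
      have : Measurable fun p : Y × Eu d =>
          (p.1, p.2 + ((n : ℝ) + 1)⁻¹ • (Pi.single j (1 : ℝ) : Eu d)) :=
        measurable_fst.prodMk (measurable_snd.add_const _)
      exact mc.comp this
    have h4 : Measurable fun p : Y × Eu d =>
        ((n : ℝ) + 1) • (c p.1 (p.2 + ((n : ℝ) + 1)⁻¹ • (Pi.single j (1 : ℝ) : Eu d)) -
        c p.1 p.2) := (h3.sub mc).const_smul ((n : ℝ) + 1)
    exact (measurable_pi_apply i).comp h4
  refine measurable_of_tendsto_metrizable h2 ?_
  rw [tendsto_pi_nhds]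
  intro p
  have h3 := (hc p.1 p.2).hasFDerivAt.lim (Pi.single j (1 : ℝ) : Eu d)
    (c := fun n : ℕ => (n : ℝ) + 1) (l := atTop) (by
      have : (fun n : ℕ => ‖(n : ℝ) + 1‖) = fun n : ℕ => (n : ℝ) + 1 := by
        funext n
        rw [Real.norm_of_nonneg (by positivity)]
      rw [this]
      exact tendsto_atTop_add_const_right _ _ tendsto_natCast_atTop_atTop)
  exact (tendsto_pi_nhds.1 h3 i)

/-- differentiable families -/
theorem fdat_of {Y : Type*} [MeasurableSpace Y] {η : Measure Y} {d N : ℕ} {T : Set ℝ}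
    {c : Y → Eu d → Eu d} (mT : MeasurableSet T)
    (mc : Measurable fun p : Y × Eu d => c p.1 p.2) (hc : ∀ y, Differentiable ℝ (c y))
    (hN : ∀ t ∈ T, ∀ y x, {v | c y v + t • v = x ∧
      (fderiv ℝ (c y) v + t • ContinuousLinearMap.id ℝ (Eu d)).det ≠ 0}.encard ≤ N)
    {Om : Eu d → Set (Eu d)}
    (hmp : ∀ᵐ v : Eu d, MeasurePreserving (fun y => c y v) η (volume.restrict (Om v))) :
    FDat η d N T c (Mt c) where
  mT := mT
  mc := mc
  mM := measurable_Mt mc hc
  der := fun y v => by rw [Lm_Mt]; exact (hc y v).hasFDerivAt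
  mult := fun t ht y x => by
    refine (Set.encard_le_encard ?_).trans (hN t ht y x)
    rintro v ⟨h1, h2⟩
    rw [det_Mt] at h2
    exact ⟨h1, h2⟩
  mp := by
    filter_upwards [hmp] with v hv
    intro S hS
    have h1 : η ((fun y => c y v) ⁻¹' S) = volume.restrict (Om v) S :=
      hv.measure_preimage hS.nullMeasurableSet
    have h2 : η {y | c y v ∈ S} = volume.restrict (Om v) S := h1
    rw [h2]
    exact Measure.restrict_apply_le _ _

/-- the measure on the parameters is σ-finite -/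
theorem sigmaFinite_of {Y : Type*} [MeasurableSpace Y] {η : Measure Y} {d : ℕ}
    {c : Y → Eu d → Eu d} {Om : Eu d → Set (Eu d)}
    (hmp : ∀ᵐ v : Eu d, MeasurePreserving (fun y => c y v) η (volume.restrict (Om v))) :
    SigmaFinite η := by
  obtain ⟨v, hv⟩ := hmp.exists
  have h1 : SigmaFinite (Measure.map (fun y => c y v) η) := by
    rw [hv.map_eq]; infer_instance
  exact SigmaFinite.of_map η hv.measurable.aemeasurable h1

/-- polynomial maps of degree at most `k` -/
theorem poly_mult {d k : ℕ} {f : Eu d → Eu d}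
    (hf : ∀ i, ∃ P : MvPolynomial (Fin d) ℝ, P.totalDegree ≤ k ∧
      ∀ v, f v i = MvPolynomial.eval v P) :
    Differentiable ℝ f ∧ ∀ (t : ℝ) (x : Eu d), {v | f v + t • v = x ∧
      (fderiv ℝ f v + t • ContinuousLinearMap.id ℝ (Eu d)).det ≠ 0}.encard ≤
        ((k + 2) ^ d : ℕ) := by
  choose P hP1 hP2 using hf
  have hfe : f = fun v => fun i => MvPolynomial.eval v (P i) := by
    funext v i; exact hP2 i v
  have hdiff : Differentiable ℝ f := by
    rw [hfe]
    exact (contDiff_pi.2 fun i => contDiff_eval (n := 1) (P i)).differentiable one_ne_zero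
  refine ⟨hdiff, fun t x => ?_⟩
  set Q : Fin d → MvPolynomial (Fin d) ℝ := fun i =>
    P i + MvPolynomial.C t * MvPolynomial.X i - MvPolynomial.C (x i) with hQ
  have hQd : ∀ i, (Q i).totalDegree ≤ k + 1 := by
    intro i
    refine (MvPolynomial.totalDegree_sub _ _).trans (max_le ?_ ?_)
    · refine (MvPolynomial.totalDegree_add _ _).trans (max_le ?_ ?_)
      · exact (hP1 i).trans (Nat.le_succ k)
      · refine (MvPolynomial.totalDegree_mul _ _).trans ?_
        rw [MvPolynomial.totalDegree_C, zero_add, MvPolynomial.totalDegree_X]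
        omega
    · rw [MvPolynomial.totalDegree_C]; omega
  have hQe : (fun v : Eu d => fun i => MvPolynomial.eval v (Q i)) =
      fun v => f v + t • v - x := by
    funext v i
    simp [hQ, hP2 i v]
  have h1 := encard_nondeg Q hQd
  rw [hQe] at h1
  refine (Set.encard_le_encard ?_).trans h1
  rintro v ⟨h2, h3⟩
  refine ⟨?_, ?_⟩
  · have := congrFun hQe v
    rw [this, h2, sub_self]
  · have h4 : HasFDerivAt (fun v => f v + t • v - x)
        (fderiv ℝ f v + t • ContinuousLinearMap.id ℝ (Eu d)) v :=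
      (((hdiff v).hasFDerivAt).add ((hasFDerivAt_id v).const_smul t)).sub_const x
    rw [h4.fderiv]
    exact h3

end Pool.Agent.FTX
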