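import Pool.Agent.FTX.Sub
import Pool.Agent.FTX.Area

/-!
# FTX, module Res: the restricted estimates
-/

set_option autoImplicit false

open MeasureTheory Set
open scoped ENNReal NNReal

namespace Pool.Agent.FTX

/-- the space of the positions and of the velocities -/
abbrev Eu (d : ℕ) : Type := Fin d → ℝ

/-- the Jacobian determinant of `v ↦ c y v + t v`, `M` the matrix of the derivative of `c y` -/
noncomputable def Jd {Y : Type*} {d : ℕ} (M : Y → Eu d → Matrix (Fin d) (Fin d) ℝ)
    (x : Y × ℝ × Eu d) : ℝ := (M x.1 x.2.2 + x.2.1 • (1 : Matrix (Fin d) (Fin d) ℝ)).det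

/-- the continuous linear map of a matrix -/
noncomputable def Lm {d : ℕ} (A : Matrix (Fin d) (Fin d) ℝ) : Eu d →L[ℝ] Eu d :=
  LinearMap.toContinuousLinearMap (Matrix.toLin' A)

theorem det_Lm {d : ℕ} (A : Matrix (Fin d) (Fin d) ℝ) : (Lm A).det = A.det := by
  unfold Lm
  rw [LinearMap.det_toContinuousLinearMap, LinearMap.det_toLin']

/-- the data: a measurable family of differentiable maps, of multiplicity at most `N` for the
times in `T`, and compressing volumes in the parameter -/
structure FDat {Y : Type*} [MeasurableSpace Y] (η : Measure Y) (d N : ℕ) (T : Set ℝ)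
    (c : Y → Eu d → Eu d) (M : Y → Eu d → Matrix (Fin d) (Fin d) ℝ) : Prop where
  mT : MeasurableSet T
  mc : Measurable fun p : Y × Eu d => c p.1 p.2
  mM : ∀ i j, Measurable fun p : Y × Eu d => M p.1 p.2 i j
  der : ∀ y v, HasFDerivAt (c y) (Lm (M y v)) v
  mult : ∀ t ∈ T, ∀ y x, {v | c y v + t • v = x ∧
    (M y v + t • (1 : Matrix (Fin d) (Fin d) ℝ)).det ≠ 0}.encard ≤ N
  mp : ∀ᵐ v : Eu d, ∀ S : Set (Eu d), MeasurableSet S → η {y | c y v ∈ S} ≤ volume S

section

variable {Y : Type*} [MeasurableSpace Y] {η : Measure Y} {d N : ℕ} {T : Set ℝ}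
  {c : Y → Eu d → Eu d} {M : Y → Eu d → Matrix (Fin d) (Fin d) ℝ}

/-- the measure on the times and positions (or velocities) -/
noncomputable def mu3 (d : ℕ) (T : Set ℝ) : Measure (ℝ × Eu d) :=
  (volume.restrict T).prod volume

instance (d : ℕ) (T : Set ℝ) : SFinite (mu3 d T) := by unfold mu3; infer_instance

/-- the measure on the trajectories and times -/
noncomputable def zet (η : Measure Y) (d : ℕ) (T : Set ℝ) : Measure (Y × ℝ × Eu d) :=
  η.prod (mu3 d T)

instance [SFinite η] (d : ℕ) (T : Set ℝ) : SFinite (zet η d T) := by unfold zet; infer_instance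

/-- the position at the time `t` -/
def pos (c : Y → Eu d → Eu d) (x : Y × ℝ × Eu d) : ℝ × Eu d :=
  (x.2.1, c x.1 x.2.2 + x.2.1 • x.2.2)

theorem FDat.measurable_pos (h : FDat η d N T c M) : Measurable (pos c) := by
  refine (measurable_fst.comp measurable_snd).prodMk ?_
  have h1 : Measurable fun x : Y × ℝ × Eu d => c x.1 x.2.2 :=
    h.mc.comp (measurable_fst.prodMk (measurable_snd.comp measurable_snd))
  exact h1.add ((measurable_fst.comp measurable_snd).smul (measurable_snd.comp measurable_snd))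

theorem FDat.measurable_Jd (h : FDat η d N T c M) : Measurable (Jd M : Y × ℝ × Eu d → ℝ) := by
  have h1 : ∀ i j, Measurable fun x : Y × ℝ × Eu d =>
      (M x.1 x.2.2 + x.2.1 • (1 : Matrix (Fin d) (Fin d) ℝ)) i j := by
    intro i j
    have h2 : Measurable fun x : Y × ℝ × Eu d => M x.1 x.2.2 i j :=
      (h.mM i j).comp (measurable_fst.prodMk (measurable_snd.comp measurable_snd))
    have h3 : Measurable fun x : Y × ℝ × Eu d => x.2.1 * (1 : Matrix (Fin d) (Fin d) ℝ) i j :=
      (measurable_fst.comp measurable_snd).mul_const _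
    exact h2.add h3
  unfold Jd
  simp only [Matrix.det_apply]
  refine Finset.measurable_sum _ fun σ _ => ?_
  refine Measurable.const_smul ?_ _
  exact Finset.measurable_prod _ fun i _ => h1 _ _

/-- the area inequality for the map `v ↦ c y v + t v` -/
theorem FDat.area (h : FDat η d N T c M) (y : Y) {t : ℝ} (ht : t ∈ T) {ψ : Eu d → ℝ≥0∞}
    (hψ : Measurable ψ) :
    ∫⁻ v in {v | Jd M (y, t, v) ≠ 0}, ENNReal.ofReal |Jd M (y, t, v)| * ψ (c y v + t • v) ≤
      N * ∫⁻ x, ψ x := by
  have hJ : Measurable fun v => Jd M (y, t, v) :=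
    h.measurable_Jd.comp (measurable_prodMk_left.comp measurable_prodMk_left)
  have hs : MeasurableSet {v : Eu d | Jd M (y, t, v) ≠ 0} :=
    (hJ (measurableSet_singleton 0)).compl
  have hd : ∀ v : Eu d, HasFDerivAt (fun v => c y v + t • v)
      (Lm (M y v + t • (1 : Matrix (Fin d) (Fin d) ℝ))) v := by
    intro v
    have h1 := (h.der y v).add ((hasFDerivAt_id v).const_smul t)
    have h2 : Lm (M y v) + t • ContinuousLinearMap.id ℝ (Eu d) =
        Lm (M y v + t • (1 : Matrix (Fin d) (Fin d) ℝ)) := by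
      ext w i
      simp [Lm, Matrix.add_mulVec, Matrix.smul_mulVec]
    rw [← h2]
    exact h1
  have h3 := area_mult (volume : Measure (Eu d)) (fun v => c y v + t • v)
    (fun v => Lm (M y v + t • (1 : Matrix (Fin d) (Fin d) ℝ))) {v | Jd M (y, t, v) ≠ 0} hs
    (fun v _ => (hd v).hasFDerivWithinAt)
    (fun v hv => by rw [det_Lm]; exact hv) N
    (fun x => by
      refine (Set.encard_le_encard ?_).trans (h.mult t ht y x)
      rintro v ⟨hv1, hv2⟩
      exact ⟨hv2, hv1⟩) ψ hψ
  refine le_trans (le_of_eq ?_) h3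
  refine lintegral_congr fun v => ?_
  rw [det_Lm]
  rfl

end

end Pool.Agent.FTX
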