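import Pool.Agent.FTX.Parts

/-!
# FTX, module Rest: the restricted estimate for all exponents above `(d + 1) / d`
-/

set_option autoImplicit false

open MeasureTheory Set
open scoped ENNReal NNReal

namespace Pool.Agent.FTX

/-- the constant of the restricted estimate -/
noncomputable def Cr (d N : ℕ) (q : ℝ) : ℝ≥0∞ :=
  ENNReal.ofReal ((2 * d) ^ (1 / q)) + (N : ℝ≥0∞) ^ (1 - 1 / q) *
    ENNReal.ofReal ((2 * d * 2 ^ ((1 : ℝ) / d) / (1 - 2 ^ ((1 : ℝ) / d + 1 - q))) ^ (1 / q))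

theorem Cr_pos {d N : ℕ} {q : ℝ} (hd : 1 ≤ d) : Cr d N q ≠ 0 := by
  have hd0 : (0 : ℝ) < d := by exact_mod_cast hd
  unfold Cr
  have : ENNReal.ofReal ((2 * d : ℝ) ^ (1 / q)) ≠ 0 := by
    simp only [ne_eq, ENNReal.ofReal_eq_zero, not_le]
    positivity
  intro h
  exact this (add_eq_zero.1 h).1

theorem Cr_fin {d N : ℕ} {q : ℝ} (hq : 1 < q) : Cr d N q ≠ ⊤ := by
  unfold Cr
  refine ENNReal.add_ne_top.2 ⟨ENNReal.ofReal_ne_top, ENNReal.mul_ne_top ?_ ENNReal.ofReal_ne_top⟩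
  refine ENNReal.rpow_ne_top_of_nonneg ?_ (ENNReal.natCast_ne_top N)
  rw [sub_nonneg, div_le_one (by linarith)]
  exact hq.le

private lemma alg1 (G F S A e th : ℝ) (hG : 0 < G) (hF : 0 < F) (hS : 0 < S) (hA : 0 < A) :
    (G * F * (A * (G / F) ^ e)) ^ th * (F * S) ^ (1 - th) =
      A ^ th * (G ^ (th * (1 + e)) * F ^ (1 - th * e) * S ^ (1 - th)) := by
  obtain ⟨g, rfl⟩ : ∃ g, G = Real.exp g := ⟨Real.log G, (Real.exp_log hG).symm⟩
  obtain ⟨f, rfl⟩ : ∃ g, F = Real.exp g := ⟨Real.log F, (Real.exp_log hF).symm⟩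
  obtain ⟨s, rfl⟩ : ∃ g, S = Real.exp g := ⟨Real.log S, (Real.exp_log hS).symm⟩
  obtain ⟨a, rfl⟩ : ∃ g, A = Real.exp g := ⟨Real.log A, (Real.exp_log hA).symm⟩
  simp only [← Real.exp_sub, ← Real.exp_mul, ← Real.exp_add]
  congr 1
  ring

private lemma alg2 (G F S A n e q : ℝ) (hG : 0 < G) (hF : 0 < F) (hS : 0 < S) (hA : 0 < A)
    (hn : 0 < n) (hq : 0 < q) :
    (n * G * S) ^ (1 - 1 / q) * (G * F * (A * (G / F) ^ (e + 1 - q))) ^ (1 / q) =
      n ^ (1 - 1 / q) * A ^ (1 / q) *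
        (G ^ (1 / q * (1 + e)) * F ^ (1 - 1 / q * e) * S ^ (1 - 1 / q)) := by
  obtain ⟨g, rfl⟩ : ∃ g, G = Real.exp g := ⟨Real.log G, (Real.exp_log hG).symm⟩
  obtain ⟨f, rfl⟩ : ∃ g, F = Real.exp g := ⟨Real.log F, (Real.exp_log hF).symm⟩
  obtain ⟨s, rfl⟩ : ∃ g, S = Real.exp g := ⟨Real.log S, (Real.exp_log hS).symm⟩
  obtain ⟨a, rfl⟩ : ∃ g, A = Real.exp g := ⟨Real.log A, (Real.exp_log hA).symm⟩
  obtain ⟨m, rfl⟩ : ∃ g, n = Real.exp g := ⟨Real.log n, (Real.exp_log hn).symm⟩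
  simp only [← Real.exp_sub, ← Real.exp_mul, ← Real.exp_add]
  congr 1
  field_simp
  ring

section

variable {Y : Type*} [MeasurableSpace Y] {η : Measure Y} [SFinite η] {d N : ℕ} {T : Set ℝ}
  {c : Y → Eu d → Eu d} {M : Y → Eu d → Matrix (Fin d) (Fin d) ℝ}

/-- no mass over a null set of times and positions -/
private lemma null_pos (h : FDat η d N T c M) {S : Set (ℝ × Eu d)} (hS : MeasurableSet S)
    (h0 : mu3 d T S = 0) : zet η d T (pos c ⁻¹' S) = 0 := by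
  have hm : MeasurableSet (pos c ⁻¹' S : Set (Y × ℝ × Eu d)) := h.measurable_pos hS
  rw [zet, Measure.prod_apply_symm hm]
  have h1 : ∀ᵐ t ∂(volume.restrict T), volume (Prod.mk t ⁻¹' S : Set (Eu d)) = 0 := by
    have h2 := Measure.measure_ae_null_of_prod_null h0
    exact h2
  have h3 : ∀ᵐ p ∂(mu3 d T), volume (Prod.mk p.1 ⁻¹' S : Set (Eu d)) = 0 :=
    (Measure.quasiMeasurePreserving_fst (μ := volume.restrict T)
      (ν := (volume : Measure (Eu d)))).ae h1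
  have hmp : ∀ᵐ p ∂(mu3 d T), ∀ S : Set (Eu d), MeasurableSet S →
      η {y | c y p.2 ∈ S} ≤ volume S :=
    (Measure.quasiMeasurePreserving_snd (μ := volume.restrict T)
      (ν := (volume : Measure (Eu d)))).ae h.mp
  have h4 : ∀ᵐ p ∂(mu3 d T), η ((fun y => (y, p)) ⁻¹' (pos c ⁻¹' S)) = 0 := by
    filter_upwards [h3, hmp] with p hp1 hp2
    set S' : Set (Eu d) := (fun x => x + p.1 • p.2) ⁻¹' (Prod.mk p.1 ⁻¹' S) with hS'
    have k2 : MeasurableSet (Prod.mk p.1 ⁻¹' S : Set (Eu d)) := measurable_prodMk_left hS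
    have k3 : MeasurableSet S' := (measurable_add_const _) k2
    have k4 : volume S' = 0 := by
      rw [hS', measure_preimage_add_right]; exact hp1
    have k5 := hp2 S' k3
    rw [k4] at k5
    exact measure_mono_null (fun y hy => hy) (le_antisymm k5 zero_le)
  rw [lintegral_congr_ae h4, lintegral_zero]

/-- THE RESTRICTED ESTIMATE -/
theorem FDat.restricted (h : FDat η d N T c M) (hd : 1 ≤ d) (q : ℝ) (hq : 1 + 1 / (d : ℝ) < q)
    (G : Set Y) (F : Set (Eu d)) (S : Set (ℝ × Eu d)) (hG : MeasurableSet G)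
    (hF : MeasurableSet F) (hS : MeasurableSet S) :
    zet η d T (Prod.fst ⁻¹' G ∩ (fun x : Y × ℝ × Eu d => x.2.2) ⁻¹' F ∩ pos c ⁻¹' S) ≤
      Cr d N q * (η G ^ (1 / q * (1 + 1 / (d : ℝ))) * volume F ^ (1 - 1 / q * (1 / (d : ℝ))) *
        mu3 d T S ^ (1 - 1 / q)) := by
  have hd0 : (0 : ℝ) < d := by exact_mod_cast hd
  have hdi : 0 < 1 / (d : ℝ) := by positivity
  have hq1 : 1 < q := by linarith
  have hq0 : 0 < q := by linarith
  have hth : 0 < 1 / q := by positivity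
  have hth1 : 1 / q < 1 := by rw [div_lt_one hq0]; exact hq1
  have ea : 0 < 1 / q * (1 + 1 / (d : ℝ)) := by positivity
  have eb : 0 < 1 - 1 / q * (1 / (d : ℝ)) := by
    have : 1 / (d : ℝ) ≤ 1 := by
      rw [div_le_one hd0]; exact_mod_cast hd
    nlinarith
  have eg : 0 < 1 - 1 / q := by linarith
  set A : Set (Y × ℝ × Eu d) :=
    Prod.fst ⁻¹' G ∩ (fun x : Y × ℝ × Eu d => x.2.2) ⁻¹' F ∩ pos c ⁻¹' S with hA
  -- degenerate cases
  by_cases hG0 : η G = 0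
  · have h1 : zet η d T (Prod.fst ⁻¹' G) = 0 := by
      have : (Prod.fst ⁻¹' G : Set (Y × ℝ × Eu d)) = G ×ˢ univ := by ext x; simp
      rw [zet, this, Measure.prod_prod, hG0, zero_mul]
    rw [measure_mono_null (fun x hx => hx.1.1) h1]
    exact zero_le
  by_cases hF0 : volume F = 0
  · have h1 : zet η d T ((fun x : Y × ℝ × Eu d => x.2.2) ⁻¹' F) = 0 := by
      have : ((fun x : Y × ℝ × Eu d => x.2.2) ⁻¹' F : Set (Y × ℝ × Eu d)) =
        univ ×ˢ (univ ×ˢ F) := by ext x; simp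
      rw [zet, this, Measure.prod_prod, mu3, Measure.prod_prod, hF0, mul_zero, mul_zero]
    rw [measure_mono_null (fun x hx => hx.1.2) h1]
    exact zero_le
  by_cases hS0 : mu3 d T S = 0
  · rw [measure_mono_null (fun x hx => hx.2) (null_pos h hS hS0)]
    exact zero_le
  have rG : η G ^ (1 / q * (1 + 1 / (d : ℝ))) ≠ 0 := by
    rw [ne_eq, ENNReal.rpow_eq_zero_iff_of_pos ea]; exact hG0
  have rF : volume F ^ (1 - 1 / q * (1 / (d : ℝ))) ≠ 0 := by
    rw [ne_eq, ENNReal.rpow_eq_zero_iff_of_pos eb]; exact hF0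
  have rS : mu3 d T S ^ (1 - 1 / q) ≠ 0 := by
    rw [ne_eq, ENNReal.rpow_eq_zero_iff_of_pos eg]; exact hS0
  by_cases hG1 : η G = ⊤
  · rw [hG1, ENNReal.top_rpow_of_pos ea, ENNReal.top_mul rF, ENNReal.top_mul rS,
      ENNReal.mul_top (Cr_pos hd)]
    exact le_top
  by_cases hF1 : volume F = ⊤
  · rw [hF1, ENNReal.top_rpow_of_pos eb, ENNReal.mul_top rG, ENNReal.top_mul rS,
      ENNReal.mul_top (Cr_pos hd)]
    exact le_top
  by_cases hS1 : mu3 d T S = ⊤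
  · rw [hS1, ENNReal.top_rpow_of_pos eg, ENNReal.mul_top (mul_ne_zero rG rF),
      ENNReal.mul_top (Cr_pos hd)]
    exact le_top
  -- the main case
  set g := (η G).toReal with hg
  set f := (volume F).toReal with hf
  set s := (mu3 d T S).toReal with hs
  have g0 : 0 < g := ENNReal.toReal_pos hG0 hG1
  have f0 : 0 < f := ENNReal.toReal_pos hF0 hF1
  have s0 : 0 < s := ENNReal.toReal_pos hS0 hS1
  have eG : η G = ENNReal.ofReal g := (ENNReal.ofReal_toReal hG1).symm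
  have eF : volume F = ENNReal.ofReal f := (ENNReal.ofReal_toReal hF1).symm
  have eS : mu3 d T S = ENNReal.ofReal s := (ENNReal.ofReal_toReal hS1).symm
  have hk : 0 < g / f := div_pos g0 f0
  have hsplit : A ⊆ {x | x.1 ∈ G ∧ x.2.2 ∈ F ∧ |Jd M x| < g / f ∧ pos c x ∈ S} ∪
      {x | x.1 ∈ G ∧ x.2.2 ∈ F ∧ g / f ≤ |Jd M x| ∧ pos c x ∈ S} := by
    intro x hx
    rcases lt_or_ge |Jd M x| (g / f) with h1 | h1
    · exact Or.inl ⟨hx.1.1, hx.1.2, h1, hx.2⟩
    · exact Or.inr ⟨hx.1.1, hx.1.2, h1, hx.2⟩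
  have hsm := h.small hd q hq1 hG hF hS (g / f) hk
  have hla := h.large hd q hq hG hF hS (g / f) hk
  have hD0 : 0 < 2 * (d : ℝ) * 2 ^ ((1 : ℝ) / d) / (1 - 2 ^ ((1 : ℝ) / d + 1 - q)) := by
    have : (2 : ℝ) ^ ((1 : ℝ) / d + 1 - q) < 1 :=
      Real.rpow_lt_one_of_one_lt_of_neg (by norm_num) (by linarith)
    have h2 : 0 < 1 - (2 : ℝ) ^ ((1 : ℝ) / d + 1 - q) := by linarith
    positivity
  rw [eG, eF, eS] at hsm hla ⊢
  have k1 : (ENNReal.ofReal g * ENNReal.ofReal f *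
      ENNReal.ofReal (2 * d * (g / f) ^ ((1 : ℝ) / d))) ^ (1 / q) *
        (ENNReal.ofReal f * ENNReal.ofReal s) ^ (1 - 1 / q) =
      ENNReal.ofReal ((2 * d) ^ (1 / q)) * (ENNReal.ofReal g ^ (1 / q * (1 + 1 / (d : ℝ))) *
        ENNReal.ofReal f ^ (1 - 1 / q * (1 / (d : ℝ))) * ENNReal.ofReal s ^ (1 - 1 / q)) := by
    have h1 := alg1 g f s (2 * d) (1 / d) (1 / q) g0 f0 s0 (by positivity)
    rw [← ENNReal.ofReal_mul g0.le, ← ENNReal.ofReal_mul (by positivity),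
      ← ENNReal.ofReal_mul f0.le, ENNReal.ofReal_rpow_of_pos (by positivity),
      ENNReal.ofReal_rpow_of_pos (by positivity), ENNReal.ofReal_rpow_of_pos g0,
      ENNReal.ofReal_rpow_of_pos f0, ENNReal.ofReal_rpow_of_pos s0,
      ← ENNReal.ofReal_mul (by positivity), ← ENNReal.ofReal_mul (by positivity),
      ← ENNReal.ofReal_mul (by positivity), ← ENNReal.ofReal_mul (by positivity), h1]
  have k2 : ((N : ℝ≥0∞) * ENNReal.ofReal g * ENNReal.ofReal s) ^ (1 - 1 / q) *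
      (ENNReal.ofReal g * ENNReal.ofReal f * ENNReal.ofReal (2 * d * 2 ^ ((1 : ℝ) / d) /
          (1 - 2 ^ ((1 : ℝ) / d + 1 - q)) * (g / f) ^ ((1 : ℝ) / d + 1 - q))) ^ (1 / q) =
      (N : ℝ≥0∞) ^ (1 - 1 / q) *
        ENNReal.ofReal ((2 * d * 2 ^ ((1 : ℝ) / d) / (1 - 2 ^ ((1 : ℝ) / d + 1 - q))) ^ (1 / q)) *
        (ENNReal.ofReal g ^ (1 / q * (1 + 1 / (d : ℝ))) *
        ENNReal.ofReal f ^ (1 - 1 / q * (1 / (d : ℝ))) * ENNReal.ofReal s ^ (1 - 1 / q)) := by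
    rcases Nat.eq_zero_or_pos N with hN | hN
    · rw [hN, Nat.cast_zero, zero_mul, zero_mul, ENNReal.zero_rpow_of_pos eg]
      simp
    · have hn : (0 : ℝ) < N := by exact_mod_cast hN
      have h1 := alg2 g f s (2 * d * 2 ^ ((1 : ℝ) / d) / (1 - 2 ^ ((1 : ℝ) / d + 1 - q))) N
        (1 / d) q g0 f0 s0 hD0 hn hq0
      have hNr : (N : ℝ≥0∞) = ENNReal.ofReal (N : ℝ) := (ENNReal.ofReal_natCast N).symm
      rw [hNr, ← ENNReal.ofReal_mul hn.le, ← ENNReal.ofReal_mul (by positivity),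
        ← ENNReal.ofReal_mul g0.le, ← ENNReal.ofReal_mul (by positivity),
        ENNReal.ofReal_rpow_of_pos (by positivity),
        ENNReal.ofReal_rpow_of_pos (by positivity), ENNReal.ofReal_rpow_of_pos hn,
        ENNReal.ofReal_rpow_of_pos g0,
        ENNReal.ofReal_rpow_of_pos f0, ENNReal.ofReal_rpow_of_pos s0,
        ← ENNReal.ofReal_mul (by positivity), ← ENNReal.ofReal_mul (by positivity),
        ← ENNReal.ofReal_mul (by positivity), ← ENNReal.ofReal_mul (by positivity),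
        ← ENNReal.ofReal_mul (by positivity), h1]
  rw [k1] at hsm
  rw [k2] at hla
  calc zet η d T A ≤ _ := measure_mono hsplit
    _ ≤ _ := measure_union_le _ _
    _ ≤ _ := add_le_add hsm hla
    _ = _ := by unfold Cr; ring

end

end Pool.Agent.FTX
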