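import Mathlib

/-!
# FTX, module Sub: sublevel sets of `t ↦ det (M + t)` and the integral of a negative power
-/

set_option autoImplicit false

open MeasureTheory Set Polynomial
open scoped ENNReal NNReal

namespace Pool.Agent.FTX

/-- the sublevel sets of a monic polynomial of degree `d` are small -/
theorem sublevel_monic (P : ℝ[X]) (hP : P.Monic) (d : ℕ) (hd : P.natDegree = d) (hd1 : 1 ≤ d)
    (lam : ℝ) (hl : 0 < lam) :
    volume {t : ℝ | |P.eval t| < lam} ≤ ENNReal.ofReal (2 * d * lam ^ ((1 : ℝ) / d)) := by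
  classical
  set Q : ℂ[X] := P.map (algebraMap ℝ ℂ) with hQ
  have hQm : Q.Monic := hP.map _
  have hQd : Q.natDegree = d := by rw [hQ, natDegree_map]; exact hd
  have hsp : Q.Splits := IsAlgClosed.splits Q
  have hcard : Multiset.card Q.roots = d := by
    rw [← hQd]; exact hsp.natDegree_eq_card_roots.symm
  set r : ℝ := lam ^ ((1 : ℝ) / d) with hr
  have hd0 : (d : ℝ) ≠ 0 := by positivity
  have hr0 : 0 < r := Real.rpow_pos_of_pos hl _
  have hrd : r ^ d = lam := by
    rw [hr, ← Real.rpow_natCast, ← Real.rpow_mul hl.le]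
    rw [one_div, inv_mul_cancel₀ hd0, Real.rpow_one]
  have hval : ∀ t : ℝ, |P.eval t| = (Q.roots.map fun z => ‖(t : ℂ) - z‖).prod := by
    intro t
    have h1 : Q = (Q.roots.map fun a => X - C a).prod := by
      have := hsp.eq_prod_roots
      rw [hQm.leadingCoeff, C_1, one_mul] at this
      exact this
    have h2 : Q.eval (t : ℂ) = ((P.eval t : ℝ) : ℂ) := by
      rw [hQ]
      have := eval_map_algebraMap P (t : ℂ)
      rw [this]
      have h3 := aeval_algebraMap_apply ℂ t P
      simpa using h3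
    have h4 : |P.eval t| = ‖Q.eval (t : ℂ)‖ := by
      rw [h2, Complex.norm_real, Real.norm_eq_abs]
    rw [h4, h1, eval_multiset_prod, ← h1]
    rw [Multiset.map_map]
    have h5 : ‖(Multiset.map (fun a => eval (t : ℂ) (X - C a)) Q.roots).prod‖ =
        (Multiset.map (fun a => ‖eval (t : ℂ) (X - C a)‖) Q.roots).prod := by
      have := map_multiset_prod (normHom : ℂ →*₀ ℝ)
        (Multiset.map (fun a => eval (t : ℂ) (X - C a)) Q.roots)
      rw [Multiset.map_map] at this
      exact this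
    have h6 : (eval (t : ℂ)) ∘ (fun a : ℂ => (X - C a : ℂ[X])) =
        fun a => eval (t : ℂ) (X - C a) := rfl
    rw [h6, h5]
    simp
  have hsub : {t : ℝ | |P.eval t| < lam} ⊆
      ⋃ z ∈ Q.roots.toFinset, Ioo (z.re - r) (z.re + r) := by
    intro t ht
    by_contra hcon
    simp only [mem_iUnion, Multiset.mem_toFinset, exists_prop, not_exists, not_and] at hcon
    have h1 : ∀ z ∈ Q.roots, r ≤ ‖(t : ℂ) - z‖ := by
      intro z hz
      have h2 := hcon z hz
      have h3 : r ≤ |t - z.re| := by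
        by_contra h4
        push Not at h4
        rw [abs_lt] at h4
        exact h2 ⟨by linarith, by linarith⟩
      refine h3.trans ?_
      have := Complex.abs_re_le_norm ((t : ℂ) - z)
      simpa using this
    have h5 : r ^ d ≤ (Q.roots.map fun z => ‖(t : ℂ) - z‖).prod := by
      rw [← hcard]
      have h6 : r ^ (Multiset.card Q.roots) = (Q.roots.map fun _ => r).prod := by simp
      rw [h6]
      exact Multiset.prod_map_le_prod_map₀ _ _ (fun z _ => hr0.le) h1
    rw [← hval t, hrd] at h5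
    exact absurd ht (not_lt.2 h5)
  refine (measure_mono hsub).trans ((measure_biUnion_finset_le _ _).trans ?_)
  have h7 : ∀ z ∈ Q.roots.toFinset, volume (Ioo (z.re - r) (z.re + r)) =
      ENNReal.ofReal (2 * r) := by
    intro z _
    rw [Real.volume_Ioo]; congr 1; ring
  rw [Finset.sum_congr rfl h7, Finset.sum_const, nsmul_eq_mul]
  have h8 : (Q.roots.toFinset.card : ℝ≥0∞) ≤ ENNReal.ofReal (d : ℝ) := by
    rw [ENNReal.ofReal_natCast]
    have : Q.roots.toFinset.card ≤ d := by
      rw [← hcard]; exact Multiset.toFinset_card_le _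
    exact_mod_cast this
  calc (Q.roots.toFinset.card : ℝ≥0∞) * ENNReal.ofReal (2 * r)
      ≤ ENNReal.ofReal (d : ℝ) * ENNReal.ofReal (2 * r) := mul_le_mul_left h8 _
    _ = ENNReal.ofReal (2 * d * r) := by
        rw [← ENNReal.ofReal_mul (by positivity)]; congr 1; ring

/-- the sublevel sets of `t ↦ det (M + t)` -/
theorem sublevel_det {d : ℕ} (hd : 1 ≤ d) (M : Matrix (Fin d) (Fin d) ℝ) (lam : ℝ)
    (hl : 0 < lam) :
    volume {t : ℝ | |(M + t • (1 : Matrix (Fin d) (Fin d) ℝ)).det| < lam} ≤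
      ENNReal.ofReal (2 * d * lam ^ ((1 : ℝ) / d)) := by
  have h1 : ∀ t : ℝ, (M + t • (1 : Matrix (Fin d) (Fin d) ℝ)).det = (-M).charpoly.eval t := by
    intro t
    rw [Matrix.eval_charpoly]
    congr 1
    rw [sub_neg_eq_add, add_comm, Matrix.smul_one_eq_diagonal]
    rfl
  simp_rw [h1]
  refine sublevel_monic _ (Matrix.charpoly_monic _) d ?_ hd lam hl
  rw [Matrix.charpoly_natDegree_eq_dim, Fintype.card_fin]

/-- a bound for the integral of a negative power from bounds for the sublevel sets -/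
theorem neg_power {J : ℝ → ℝ} (hJ : Measurable J) (D e q kap : ℝ) (hD : 0 ≤ D) (he : 0 < e)
    (hq : 1 + e < q) (hk : 0 < kap)
    (hs : ∀ lam : ℝ, 0 < lam → volume {t : ℝ | |J t| < lam} ≤ ENNReal.ofReal (D * lam ^ e)) :
    ∫⁻ t in {t : ℝ | kap ≤ |J t|}, ENNReal.ofReal (|J t| ^ (1 - q)) ≤
      ENNReal.ofReal (D * 2 ^ e / (1 - 2 ^ (e + 1 - q)) * kap ^ (e + 1 - q)) := by
  have hrho : (2 : ℝ) ^ (e + 1 - q) < 1 := Real.rpow_lt_one_of_one_lt_of_neg (by norm_num) (by linarith)
  have hrho0 : 0 < (2 : ℝ) ^ (e + 1 - q) := by positivity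
  have hmeas : ∀ k : ℕ, MeasurableSet {t : ℝ | |J t| < 2 ^ (k + 1) * kap} := fun k =>
    measurableSet_lt hJ.abs measurable_const
  have hpt : ∀ t ∈ {t : ℝ | kap ≤ |J t|}, ENNReal.ofReal (|J t| ^ (1 - q)) ≤
      ∑' k : ℕ, ({t : ℝ | |J t| < 2 ^ (k + 1) * kap}.indicator
        (fun _ => ENNReal.ofReal ((2 ^ k * kap) ^ (1 - q))) t) := by
    intro t ht
    have ht' : kap ≤ |J t| := ht
    -- the index
    have h1 : 1 ≤ |J t| / kap := (one_le_div hk).2 ht'
    obtain ⟨k, hk1, hk2⟩ := exists_nat_pow_near h1 (by norm_num : (1 : ℝ) < 2)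
    have h2 : 2 ^ k * kap ≤ |J t| := by rwa [le_div_iff₀ hk] at hk1
    have h3 : |J t| < 2 ^ (k + 1) * kap := by rwa [div_lt_iff₀ hk] at hk2
    refine le_trans ?_ (ENNReal.le_tsum k)
    rw [indicator_of_mem (by exact h3)]
    refine ENNReal.ofReal_le_ofReal ?_
    exact Real.rpow_le_rpow_of_nonpos (by positivity) h2 (by linarith)
  calc ∫⁻ t in {t : ℝ | kap ≤ |J t|}, ENNReal.ofReal (|J t| ^ (1 - q))
      ≤ ∫⁻ t in {t : ℝ | kap ≤ |J t|}, ∑' k : ℕ, ({t : ℝ | |J t| < 2 ^ (k + 1) * kap}.indicator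
        (fun _ => ENNReal.ofReal ((2 ^ k * kap) ^ (1 - q))) t) :=
        setLIntegral_mono' (measurableSet_le measurable_const hJ.abs) hpt
    _ ≤ ∫⁻ t, ∑' k : ℕ, ({t : ℝ | |J t| < 2 ^ (k + 1) * kap}.indicator
        (fun _ => ENNReal.ofReal ((2 ^ k * kap) ^ (1 - q))) t) := setLIntegral_le_lintegral _ _
    _ = ∑' k : ℕ, ∫⁻ t, ({t : ℝ | |J t| < 2 ^ (k + 1) * kap}.indicator
        (fun _ => ENNReal.ofReal ((2 ^ k * kap) ^ (1 - q))) t) := by
        rw [lintegral_tsum]
        intro k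
        exact (measurable_const.indicator (hmeas k)).aemeasurable
    _ ≤ ∑' k : ℕ, ENNReal.ofReal (D * 2 ^ e * kap ^ (e + 1 - q) * (2 ^ (e + 1 - q)) ^ k) := by
        refine ENNReal.tsum_le_tsum fun k => ?_
        rw [lintegral_indicator (hmeas k), setLIntegral_const]
        have h4 := hs (2 ^ (k + 1) * kap) (by positivity)
        refine (mul_le_mul_right h4 _).trans ?_
        rw [← ENNReal.ofReal_mul (by positivity)]
        refine ENNReal.ofReal_le_ofReal (le_of_eq ?_)
        rw [Real.mul_rpow (by positivity) hk.le, Real.mul_rpow (by positivity) hk.le]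
        rw [← Real.rpow_natCast, ← Real.rpow_natCast, ← Real.rpow_natCast, ← Real.rpow_mul (by norm_num),
          ← Real.rpow_mul (by norm_num), ← Real.rpow_mul (by norm_num)]
        have e1 : (2 : ℝ) ^ (((k + 1 : ℕ) : ℝ) * e) = 2 ^ ((k : ℝ) * e) * 2 ^ e := by
          rw [← Real.rpow_add (by norm_num)]; congr 1; push_cast; ring
        have e2 : (2 : ℝ) ^ ((e + 1 - q) * (k : ℝ)) = 2 ^ ((k : ℝ) * (1 - q)) * 2 ^ ((k : ℝ) * e) := by
          rw [← Real.rpow_add (by norm_num)]; congr 1; ring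
        have e3 : kap ^ (e + 1 - q) = kap ^ (1 - q) * kap ^ e := by
          rw [← Real.rpow_add hk]; congr 1; ring
        rw [e1, e2, e3]
        ring
    _ = ENNReal.ofReal (∑' k : ℕ, D * 2 ^ e * kap ^ (e + 1 - q) * (2 ^ (e + 1 - q)) ^ k) := by
        rw [ENNReal.ofReal_tsum_of_nonneg]
        · intro k; positivity
        · exact (summable_geometric_of_lt_one hrho0.le hrho).mul_left _
    _ ≤ ENNReal.ofReal (D * 2 ^ e / (1 - 2 ^ (e + 1 - q)) * kap ^ (e + 1 - q)) := by
        refine ENNReal.ofReal_le_ofReal (le_of_eq ?_)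
        rw [tsum_mul_left, tsum_geometric_of_lt_one hrho0.le hrho]
        ring

end Pool.Agent.FTX
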