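import Pool.Agent.FTX.Trilin

/-!
# FTX, module Trans: the estimate for the density of the transported function
-/

set_option autoImplicit false

open MeasureTheory Set
open scoped ENNReal NNReal

namespace Pool.Agent.FTX

section

variable {Y : Type*} [MeasurableSpace Y] {η : Measure Y} [SFinite η] {d N : ℕ} {T : Set ℝ}
  {c : Y → Eu d → Eu d} {M : Y → Eu d → Matrix (Fin d) (Fin d) ℝ}

/-- change of variables in a fibre -/
private lemma fibre {Om : Set (Eu d)} (hOm : MeasurableSet Om) {cv : Y → Eu d}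
    (hmp : MeasurePreserving cv η (volume.restrict Om)) {F : Eu d → ℝ≥0∞} {G : Y → ℝ≥0∞}
    (hF : Measurable F) (h0 : ∀ᵐ x : Eu d, x ∉ Om → F x = 0) (hFG : ∀ᵐ y ∂η, F (cv y) = G y)
    {ψ : Eu d → ℝ≥0∞} (hψ : Measurable ψ) :
    ∫⁻ x, F x * ψ x = ∫⁻ y, G y * ψ (cv y) ∂η := by
  have h1 : ∫⁻ x in Omᶜ, F x * ψ x = 0 := by
    have h2 : ∀ᵐ x ∂(volume.restrict Omᶜ), F x * ψ x = 0 := by
      rw [ae_restrict_iff' hOm.compl]
      filter_upwards [h0] with x hx hxc
      rw [hx hxc, zero_mul]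
    rw [lintegral_congr_ae h2, lintegral_zero]
  rw [← lintegral_add_compl _ hOm, h1, add_zero]
  have hFψ : Measurable fun x => F x * ψ x := hF.mul hψ
  rw [← hmp.lintegral_comp hFψ]
  refine lintegral_congr_ae ?_
  filter_upwards [hFG] with y hy
  show F (cv y) * ψ (cv y) = _
  rw [hy]

private lemma norm_fibre {b a : ℝ} (hb : 0 < b) (ha : 0 < a) {f : Eu d → Eu d → ℝ≥0∞}
    (hf : Measurable (Function.uncurry f)) {g : Y → ℝ≥0∞} {k : Eu d → ℝ≥0∞} (hg : Measurable g)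
    (hk : Measurable k) {Om : Eu d → Set (Eu d)} (hOm : ∀ v, MeasurableSet (Om v))
    (hmp : ∀ᵐ v : Eu d, MeasurePreserving (fun y => c y v) η (volume.restrict (Om v)))
    (h0 : ∀ᵐ v : Eu d, ∀ᵐ x : Eu d, x ∉ Om v → f x v = 0)
    (hfg : ∀ᵐ v : Eu d, ∀ᵐ y ∂η, f (c y v) v = g y * k v) :
    (∫⁻ v : Eu d, (∫⁻ x : Eu d, f x v ^ b) ^ (a / b)) ^ (1 / a) =
      (∫⁻ y, g y ^ b ∂η) ^ (1 / b) * (∫⁻ v, k v ^ a) ^ (1 / a) := by
  have h1 : ∀ᵐ v : Eu d, (∫⁻ x : Eu d, f x v ^ b) ^ (a / b) =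
      (∫⁻ y, g y ^ b ∂η) ^ (a / b) * k v ^ a := by
    filter_upwards [hmp, h0, hfg] with v h2 h3 h4
    have hfv : Measurable fun x : Eu d => f x v ^ b :=
      (hf.comp measurable_prodMk_right).pow_const b
    have h5 := fibre (hOm v) h2 hfv (by
        filter_upwards [h3] with x hx hxc
        rw [hx hxc, ENNReal.zero_rpow_of_pos hb]) (G := fun y => g y ^ b * k v ^ b) (by
        filter_upwards [h4] with y hy
        rw [hy, ENNReal.mul_rpow_of_nonneg _ _ hb.le]) (ψ := fun _ => 1) measurable_const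
    simp only [mul_one] at h5
    rw [h5, lintegral_mul_const _ (hg.pow_const b), ENNReal.mul_rpow_of_nonneg _ _ (by positivity),
      ← ENNReal.rpow_mul]
    congr 2
    field_simp
  rw [lintegral_congr_ae h1, lintegral_const_mul _ (hk.pow_const a),
    ENNReal.mul_rpow_of_nonneg _ _ (by positivity), ← ENNReal.rpow_mul]
  congr 2
  field_simp

/-- THE ESTIMATE FOR THE DENSITY -/
theorem FDat.transport (h : FDat η d N T c M) (hd : 1 ≤ d) (p : ℝ) (hp : 1 + 1 / (d : ℝ) < p)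
    {f : Eu d → Eu d → ℝ≥0∞} (hf : Measurable (Function.uncurry f))
    {g : Y → ℝ≥0∞} {k : Eu d → ℝ≥0∞} (hg : Measurable g)
    (hk : Measurable k) {Om : Eu d → Set (Eu d)} (hOm : ∀ v, MeasurableSet (Om v))
    (hmp : ∀ᵐ v : Eu d, MeasurePreserving (fun y => c y v) η (volume.restrict (Om v)))
    (h0 : ∀ᵐ v : Eu d, ∀ᵐ x : Eu d, x ∉ Om v → f x v = 0)
    (hfg : ∀ᵐ v : Eu d, ∀ᵐ y ∂η, f (c y v) v = g y * k v) :
    (∫⁻ t in T, ∫⁻ x : Eu d, (∫⁻ v : Eu d, f (x - t • v) v) ^ p) ^ (1 / p) ≤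
      Cm d N p * (∫⁻ v : Eu d, (∫⁻ x : Eu d, f x v ^ (d * p / (d + 1))) ^
        ((d * p / (d * p - 1)) / (d * p / (d + 1)))) ^ (1 / (d * p / (d * p - 1))) := by
  have hd0 : (0 : ℝ) < d := by exact_mod_cast hd
  have hdi : 0 < 1 / (d : ℝ) := by positivity
  have hp0 : 0 < p := by linarith
  have hdp : (d : ℝ) + 1 < d * p := by
    have : (d : ℝ) * (1 + 1 / (d : ℝ)) < d * p := mul_lt_mul_of_pos_left hp hd0
    have e : (d : ℝ) * (1 + 1 / (d : ℝ)) = d + 1 := by field_simp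
    linarith
  have hdp1 : 0 < (d : ℝ) * p - 1 := by linarith
  rw [norm_fibre (by positivity) (by positivity) hf hg hk hOm hmp h0 hfg]
  set ρ : ℝ × Eu d → ℝ≥0∞ := fun w => ∫⁻ v : Eu d, f (w.2 - w.1 • v) v with hρ
  have hFm : Measurable fun q : (ℝ × Eu d) × Eu d => f (q.1.2 - q.1.1 • q.2) q.2 := by
    have h1 : Measurable fun q : (ℝ × Eu d) × Eu d => (q.1.2 - q.1.1 • q.2, q.2) :=
      ((measurable_snd.comp measurable_fst).sub
        ((measurable_fst.comp measurable_fst).smul measurable_snd)).prodMk measurable_snd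
    exact hf.comp h1
  have hρm : Measurable ρ := hFm.lintegral_prod_right'
  have hL : ∫⁻ t in T, ∫⁻ x : Eu d, (∫⁻ v : Eu d, f (x - t • v) v) ^ p =
      ∫⁻ w, ρ w ^ p ∂(mu3 d T) := by
    rw [mu3, lintegral_prod _ (hρm.pow_const p).aemeasurable]
  rw [hL]
  have : SigmaFinite (mu3 d T) := by unfold mu3; infer_instance
  refine dual_norm (mu3 d T) hρm p (p / (p - 1)) (by linarith) rfl _ fun φ hφ => ?_
  have key := h.trilinear hd p hp hg hk hφ
  rw [← mul_assoc (Cm d N p)] at key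
  refine le_trans (le_of_eq ?_) key
  -- the pairing
  have hpm : Measurable fun x : Y × ℝ × Eu d => g x.1 * k x.2.2 * φ (pos c x) :=
    ((hg.comp measurable_fst).mul (hk.comp (measurable_snd.comp measurable_snd))).mul
      (hφ.comp h.measurable_pos)
  have hpm2 : Measurable fun w : ℝ × Eu d => ∫⁻ y, g y * k w.2 * φ (pos c (y, w)) ∂η :=
    hpm.lintegral_prod_left'
  have eR : ∫⁻ x, g x.1 * k x.2.2 * φ (pos c x) ∂(zet η d T) =
      ∫⁻ v : Eu d, ∫⁻ t in T, ∫⁻ y, g y * k v * φ (t, c y v + t • v) ∂η := by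
    rw [zet, lintegral_prod_symm _ hpm.aemeasurable, mu3,
      lintegral_prod_symm _ hpm2.aemeasurable]
    rfl
  have hGm : Measurable fun q : (ℝ × Eu d) × Eu d =>
      f (q.1.2 - q.1.1 • q.2) q.2 * φ q.1 := hFm.mul (hφ.comp measurable_fst)
  have eL : ∫⁻ w, ρ w * φ w ∂(mu3 d T) =
      ∫⁻ v : Eu d, ∫⁻ t in T, ∫⁻ x : Eu d, f (x - t • v) v * φ (t, x) := by
    have h1 : ∀ w, ρ w * φ w = ∫⁻ v : Eu d, f (w.2 - w.1 • v) v * φ w := by
      intro w
      rw [hρ, lintegral_mul_const]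
      exact hFm.comp measurable_prodMk_left
    simp only [h1]
    rw [lintegral_lintegral_swap hGm.aemeasurable]
    refine lintegral_congr fun v => ?_
    have hGv : Measurable fun w : ℝ × Eu d => f (w.2 - w.1 • v) v * φ w :=
      hGm.comp measurable_prodMk_right
    rw [mu3, lintegral_prod _ hGv.aemeasurable]
  rw [eL, eR]
  refine lintegral_congr_ae ?_
  filter_upwards [hmp, h0, hfg] with v h1 h2 h3
  refine lintegral_congr fun t => ?_
  have hfv : Measurable fun x : Eu d => f x v := hf.comp measurable_prodMk_right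
  have hψ : Measurable fun x : Eu d => φ (t, x + t • v) :=
    hφ.comp (measurable_const.prodMk (measurable_id.add_const _))
  have h4 : ∫⁻ x : Eu d, f (x - t • v) v * φ (t, x) = ∫⁻ x : Eu d, f x v * φ (t, x + t • v) := by
    have h5 := lintegral_sub_right_eq_self (μ := (volume : Measure (Eu d)))
      (fun x => f x v * φ (t, x + t • v)) (t • v)
    rw [← h5]
    refine lintegral_congr fun x => ?_
    rw [sub_add_cancel]
  rw [h4, fibre (hOm v) h1 hfv h2 (G := fun y => g y * k v) h3 hψ]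

end

end Pool.Agent.FTX
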