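import Pool.Agent.FTX.Int

/-!
# FTX, module Tri: the trilinear inequality with an exponentially decaying weight
-/

set_option autoImplicit false

open MeasureTheory Set
open scoped ENNReal NNReal

namespace Pool.Agent.FTX

/-- the weight -/
noncomputable def wt (ep c1 c2 c3 : ℝ) (w : ℝ × ℝ × ℝ) : ℝ≥0∞ :=
  ENNReal.ofReal (Real.exp (-(ep * |c1 * w.1 + c2 * w.2.1 + c3 * w.2.2|)))

theorem measurable_wt (ep c1 c2 c3 : ℝ) : Measurable (wt ep c1 c2 c3) := by
  unfold wt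
  refine Measurable.ennreal_ofReal ?_
  refine Continuous.measurable ?_
  fun_prop

private lemma int_AB {A B : ℝ → ℝ≥0∞} (hA : Measurable A) (hB : Measurable B)
    (ep c1 c2 c3 : ℝ) (hep : 0 < ep) (h3 : c3 ≠ 0) :
    ∫⁻ w : ℝ × ℝ × ℝ, A w.1 * B w.2.1 * wt ep c1 c2 c3 w =
      (∫⁻ s, A s) * (∫⁻ r, B r) * ENNReal.ofReal (2 / (ep * |c3|)) := by
  have hw := measurable_wt ep c1 c2 c3
  have hm : Measurable fun w : ℝ × ℝ × ℝ => A w.1 * B w.2.1 * wt ep c1 c2 c3 w :=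
    ((hA.comp measurable_fst).mul (hB.comp (measurable_fst.comp measurable_snd))).mul hw
  rw [Measure.volume_eq_prod, lintegral_prod _ hm.aemeasurable]
  have h4 : ∀ s : ℝ, ∫⁻ y : ℝ × ℝ, A s * B y.1 * wt ep c1 c2 c3 (s, y) =
      A s * ((∫⁻ r, B r) * ENNReal.ofReal (2 / (ep * |c3|))) := by
    intro s
    have hm' : Measurable fun y : ℝ × ℝ => A s * B y.1 * wt ep c1 c2 c3 (s, y) :=
      hm.comp measurable_prodMk_left
    rw [Measure.volume_eq_prod, lintegral_prod _ hm'.aemeasurable]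
    have h5 : ∀ r : ℝ, ∫⁻ u : ℝ, A s * B r * wt ep c1 c2 c3 (s, r, u) =
        A s * (B r * ENNReal.ofReal (2 / (ep * |c3|))) := by
      intro r
      have hm2 : Measurable fun u : ℝ => wt ep c1 c2 c3 (s, r, u) :=
        hw.comp (measurable_prodMk_left.comp measurable_prodMk_left)
      rw [lintegral_const_mul _ hm2]
      have h6 := lintegral_weight ep c3 (c1 * s + c2 * r) hep h3
      have h7 : ∀ u : ℝ, wt ep c1 c2 c3 (s, r, u) =
          ENNReal.ofReal (Real.exp (-(ep * |c3 * u + (c1 * s + c2 * r)|))) := by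
        intro u
        unfold wt
        have : c1 * s + c2 * r + c3 * u = c3 * u + (c1 * s + c2 * r) := by ring
        simp only [this]
      simp only [h7]
      rw [h6, mul_assoc]
    simp only [h5]
    rw [lintegral_const_mul _ (hB.mul_const _), lintegral_mul_const _ hB]
  simp only [h4]
  rw [lintegral_mul_const _ hA, mul_assoc]

private lemma int_AD {A D : ℝ → ℝ≥0∞} (hA : Measurable A) (hD : Measurable D)
    (ep c1 c2 c3 : ℝ) (hep : 0 < ep) (h2 : c2 ≠ 0) :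
    ∫⁻ w : ℝ × ℝ × ℝ, A w.1 * D w.2.2 * wt ep c1 c2 c3 w =
      (∫⁻ s, A s) * (∫⁻ u, D u) * ENNReal.ofReal (2 / (ep * |c2|)) := by
  have hw := measurable_wt ep c1 c2 c3
  have hm : Measurable fun w : ℝ × ℝ × ℝ => A w.1 * D w.2.2 * wt ep c1 c2 c3 w :=
    ((hA.comp measurable_fst).mul (hD.comp (measurable_snd.comp measurable_snd))).mul hw
  rw [Measure.volume_eq_prod, lintegral_prod _ hm.aemeasurable]
  have h4 : ∀ s : ℝ, ∫⁻ y : ℝ × ℝ, A s * D y.2 * wt ep c1 c2 c3 (s, y) =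
      A s * ((∫⁻ u, D u) * ENNReal.ofReal (2 / (ep * |c2|))) := by
    intro s
    have hm' : Measurable fun y : ℝ × ℝ => A s * D y.2 * wt ep c1 c2 c3 (s, y) :=
      hm.comp measurable_prodMk_left
    rw [Measure.volume_eq_prod, lintegral_prod_symm _ hm'.aemeasurable]
    have h5 : ∀ u : ℝ, ∫⁻ r : ℝ, A s * D u * wt ep c1 c2 c3 (s, r, u) =
        A s * (D u * ENNReal.ofReal (2 / (ep * |c2|))) := by
      intro u
      have hm2 : Measurable fun r : ℝ => wt ep c1 c2 c3 (s, r, u) :=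
        hw.comp (measurable_prodMk_left.comp measurable_prodMk_right)
      rw [lintegral_const_mul _ hm2]
      have h6 := lintegral_weight ep c2 (c1 * s + c3 * u) hep h2
      have h7 : ∀ r : ℝ, wt ep c1 c2 c3 (s, r, u) =
          ENNReal.ofReal (Real.exp (-(ep * |c2 * r + (c1 * s + c3 * u)|))) := by
        intro r
        unfold wt
        have : c1 * s + c2 * r + c3 * u = c2 * r + (c1 * s + c3 * u) := by ring
        simp only [this]
      simp only [h7]
      rw [h6, mul_assoc]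
    simp only [h5]
    rw [lintegral_const_mul _ (hD.mul_const _), lintegral_mul_const _ hD]
  simp only [h4]
  rw [lintegral_mul_const _ hA, mul_assoc]

private lemma int_BD {B D : ℝ → ℝ≥0∞} (hB : Measurable B) (hD : Measurable D)
    (ep c1 c2 c3 : ℝ) (hep : 0 < ep) (h1 : c1 ≠ 0) :
    ∫⁻ w : ℝ × ℝ × ℝ, B w.2.1 * D w.2.2 * wt ep c1 c2 c3 w =
      (∫⁻ r, B r) * (∫⁻ u, D u) * ENNReal.ofReal (2 / (ep * |c1|)) := by
  have hw := measurable_wt ep c1 c2 c3
  have hBD : Measurable fun y : ℝ × ℝ => B y.1 * D y.2 :=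
    (hB.comp measurable_fst).mul (hD.comp measurable_snd)
  have hm : Measurable fun w : ℝ × ℝ × ℝ => B w.2.1 * D w.2.2 * wt ep c1 c2 c3 w :=
    (hBD.comp measurable_snd).mul hw
  rw [Measure.volume_eq_prod, lintegral_prod_symm _ hm.aemeasurable]
  have h4 : ∀ y : ℝ × ℝ, ∫⁻ s : ℝ, B y.1 * D y.2 * wt ep c1 c2 c3 (s, y) =
      B y.1 * D y.2 * ENNReal.ofReal (2 / (ep * |c1|)) := by
    intro y
    have hm2 : Measurable fun s : ℝ => wt ep c1 c2 c3 (s, y) := hw.comp measurable_prodMk_right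
    rw [lintegral_const_mul _ hm2]
    have h6 := lintegral_weight ep c1 (c2 * y.1 + c3 * y.2) hep h1
    have h7 : ∀ s : ℝ, wt ep c1 c2 c3 (s, y) =
        ENNReal.ofReal (Real.exp (-(ep * |c1 * s + (c2 * y.1 + c3 * y.2)|))) := by
      intro s
      unfold wt
      have : c1 * s + c2 * y.1 + c3 * y.2 = c1 * s + (c2 * y.1 + c3 * y.2) := by ring
      simp only [this]
    simp only [h7]
    rw [h6]
  simp only [h4]
  rw [lintegral_mul_const _ hBD, Measure.volume_eq_prod,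
    lintegral_prod_mul hB.aemeasurable hD.aemeasurable]

/-- the trilinear inequality -/
theorem tri_holder {A B D : ℝ → ℝ≥0∞} (hA : Measurable A) (hB : Measurable B) (hD : Measurable D)
    (al be ga ep c1 c2 c3 : ℝ) (h1a : al ≤ 1) (h1b : be ≤ 1) (h1g : ga ≤ 1)
    (hsum : al + be + ga = 2) (hep : 0 < ep) (h1 : c1 ≠ 0) (h2 : c2 ≠ 0) (h3 : c3 ≠ 0) :
    ∫⁻ w : ℝ × ℝ × ℝ, A w.1 ^ al * B w.2.1 ^ be * D w.2.2 ^ ga * wt ep c1 c2 c3 w ≤
      ((∫⁻ s, A s) * (∫⁻ r, B r) * ENNReal.ofReal (2 / (ep * |c3|))) ^ (1 - ga) *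
      ((∫⁻ s, A s) * (∫⁻ u, D u) * ENNReal.ofReal (2 / (ep * |c2|))) ^ (1 - be) *
      ((∫⁻ r, B r) * (∫⁻ u, D u) * ENNReal.ofReal (2 / (ep * |c1|))) ^ (1 - al) := by
  have hw := measurable_wt ep c1 c2 c3
  set W := wt ep c1 c2 c3 with hW
  set f : Fin 3 → ℝ × ℝ × ℝ → ℝ≥0∞ := ![fun w => A w.1 * B w.2.1 * W w,
    fun w => A w.1 * D w.2.2 * W w, fun w => B w.2.1 * D w.2.2 * W w] with hf
  set p : Fin 3 → ℝ := ![1 - ga, 1 - be, 1 - al] with hp
  have hA' : Measurable fun w : ℝ × ℝ × ℝ => A w.1 := hA.comp measurable_fst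
  have hB' : Measurable fun w : ℝ × ℝ × ℝ => B w.2.1 := hB.comp (measurable_fst.comp measurable_snd)
  have hD' : Measurable fun w : ℝ × ℝ × ℝ => D w.2.2 := hD.comp (measurable_snd.comp measurable_snd)
  have hH := ENNReal.lintegral_prod_norm_pow_le (μ := (volume : Measure (ℝ × ℝ × ℝ)))
    (Finset.univ : Finset (Fin 3)) (f := f) (p := p)
    (by
      intro i _
      fin_cases i
      · exact ((hA'.mul hB').mul hw).aemeasurable
      · exact ((hA'.mul hD').mul hw).aemeasurable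
      · exact ((hB'.mul hD').mul hw).aemeasurable)
    (by rw [Fin.sum_univ_three]; simp only [hp, Matrix.cons_val_zero, Matrix.cons_val_one,
          Matrix.cons_val]; linarith)
    (by
      intro i _
      fin_cases i
      · show (0 : ℝ) ≤ 1 - ga; linarith
      · show (0 : ℝ) ≤ 1 - be; linarith
      · show (0 : ℝ) ≤ 1 - al; linarith)
  rw [Fin.prod_univ_three] at hH
  simp only [Fin.prod_univ_three] at hH
  have e0 : p 0 = 1 - ga := rfl
  have e1 : p 1 = 1 - be := rfl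
  have e2 : p 2 = 1 - al := rfl
  have f0 : f 0 = fun w => A w.1 * B w.2.1 * W w := rfl
  have f1 : f 1 = fun w => A w.1 * D w.2.2 * W w := rfl
  have f2 : f 2 = fun w => B w.2.1 * D w.2.2 * W w := rfl
  rw [e0, e1, e2, f0, f1, f2] at hH
  rw [int_AB hA hB ep c1 c2 c3 hep h3, int_AD hA hD ep c1 c2 c3 hep h2,
    int_BD hB hD ep c1 c2 c3 hep h1] at hH
  refine le_trans (le_of_eq ?_) hH
  refine lintegral_congr fun w => ?_
  have g1 : 0 ≤ 1 - ga := by linarith
  have g2 : 0 ≤ 1 - be := by linarith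
  have g3 : 0 ≤ 1 - al := by linarith
  rw [ENNReal.mul_rpow_of_nonneg _ _ g1, ENNReal.mul_rpow_of_nonneg _ _ g1,
    ENNReal.mul_rpow_of_nonneg _ _ g2, ENNReal.mul_rpow_of_nonneg _ _ g2,
    ENNReal.mul_rpow_of_nonneg _ _ g3, ENNReal.mul_rpow_of_nonneg _ _ g3]
  have k1 : A w.1 ^ al = A w.1 ^ (1 - ga) * A w.1 ^ (1 - be) := by
    rw [← ENNReal.rpow_add_of_nonneg _ _ g1 g2]; congr 1; linarith
  have k2 : B w.2.1 ^ be = B w.2.1 ^ (1 - ga) * B w.2.1 ^ (1 - al) := by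
    rw [← ENNReal.rpow_add_of_nonneg _ _ g1 g3]; congr 1; linarith
  have k3 : D w.2.2 ^ ga = D w.2.2 ^ (1 - be) * D w.2.2 ^ (1 - al) := by
    rw [← ENNReal.rpow_add_of_nonneg _ _ g2 g3]; congr 1; linarith
  have k4 : W w = W w ^ (1 - ga) * W w ^ (1 - be) * W w ^ (1 - al) := by
    rw [← ENNReal.rpow_add_of_nonneg _ _ g1 g2, ← ENNReal.rpow_add_of_nonneg _ _ (by linarith) g3]
    have : 1 - ga + (1 - be) + (1 - al) = 1 := by linarith
    rw [this, ENNReal.rpow_one]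
  rw [k1, k2, k3]
  conv_lhs => rw [k4]
  ring

end Pool.Agent.FTX
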