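import Pool.Agent.FTX.Main

/-!
# FTX, module Trilin: the trilinear estimate in the full range
-/

set_option autoImplicit false

open MeasureTheory Set
open scoped ENNReal NNReal

namespace Pool.Agent.FTX

/-- the distance of the two exponents from `p` -/
noncomputable def tau (d : ℕ) (p : ℝ) : ℝ := min (1 / 2) ((p / (1 + 1 / (d : ℝ)) - 1) / 2)

theorem tau_spec {d : ℕ} {p : ℝ} (hd : 1 ≤ d) (hp : 1 + 1 / (d : ℝ) < p) :
    0 < tau d p ∧ tau d p ≤ 1 / 2 ∧ 1 + 1 / (d : ℝ) < p / (1 + tau d p) ∧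
      1 + 1 / (d : ℝ) < p / (1 - tau d p) := by
  have hd0 : (0 : ℝ) < d := by exact_mod_cast hd
  have hdi : 0 < 1 / (d : ℝ) := by positivity
  set p0 := 1 + 1 / (d : ℝ) with hp0
  have h0 : 0 < p0 := by positivity
  have h1 : 1 < p / p0 := (one_lt_div h0).2 hp
  have t0 : 0 < tau d p := lt_min (by norm_num) (by rw [← hp0]; linarith)
  have t1 : tau d p ≤ 1 / 2 := min_le_left _ _
  have t2 : tau d p ≤ (p / p0 - 1) / 2 := min_le_right _ _
  refine ⟨t0, t1, ?_, ?_⟩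
  · rw [lt_div_iff₀ (by linarith)]
    have h3 : p0 * (p / p0) = p := by field_simp
    nlinarith
  · rw [lt_div_iff₀ (by linarith)]
    nlinarith

/-- the constant -/
noncomputable def Cm (d N : ℕ) (p : ℝ) : ℝ≥0∞ :=
  (Cr d N (p / (1 + tau d p)) + Cr d N (p / (1 - tau d p))) *
    (Mc (1 / 2) (-(2 * tau d p)) (2 * tau d p / (d * p - 1)) (2 * tau d p / (p - 1))
        (1 / (p / (1 + tau d p)) * (1 + 1 / (d : ℝ)))
        (1 - 1 / (p / (1 + tau d p)) * (1 / (d : ℝ))) (1 - 1 / (p / (1 + tau d p))) +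
      Mc (1 / 2) (-(2 * tau d p)) (2 * tau d p / (d * p - 1)) (2 * tau d p / (p - 1))
        (1 / (p / (1 - tau d p)) * (1 + 1 / (d : ℝ)))
        (1 - 1 / (p / (1 - tau d p)) * (1 / (d : ℝ))) (1 - 1 / (p / (1 - tau d p))))

private lemma exps {d : ℕ} (hd : 1 ≤ d) {q : ℝ} (hq : 1 + 1 / (d : ℝ) < q) :
    (0 < 1 / q * (1 + 1 / (d : ℝ)) ∧ 1 / q * (1 + 1 / (d : ℝ)) ≤ 1) ∧
    (0 < 1 - 1 / q * (1 / (d : ℝ)) ∧ 1 - 1 / q * (1 / (d : ℝ)) ≤ 1) ∧
    (0 < 1 - 1 / q ∧ 1 - 1 / q ≤ 1) ∧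
    1 / q * (1 + 1 / (d : ℝ)) + (1 - 1 / q * (1 / (d : ℝ))) + (1 - 1 / q) = 2 := by
  have hd0 : (0 : ℝ) < d := by exact_mod_cast hd
  have hdi : 0 < 1 / (d : ℝ) := by positivity
  have hdi1 : 1 / (d : ℝ) ≤ 1 := by rw [div_le_one hd0]; exact_mod_cast hd
  have hq0 : 0 < q := by linarith
  have hth : 0 < 1 / q := by positivity
  have hth1 : 1 / q < 1 := by rw [div_lt_one hq0]; linarith
  have h2 : 1 / q * (1 + 1 / (d : ℝ)) ≤ 1 := by
    rw [one_div_mul_eq_div, div_le_one hq0]; exact hq.le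
  have h3 : 0 < 1 / q * (1 / (d : ℝ)) := by positivity
  have h4 : 1 / q * (1 / (d : ℝ)) < 1 := by nlinarith
  refine ⟨⟨by positivity, h2⟩, ⟨by linarith, by linarith⟩, ⟨by linarith, by linarith⟩, by ring⟩

theorem Cm_fin {d N : ℕ} {p : ℝ} (hd : 1 ≤ d) (hp : 1 + 1 / (d : ℝ) < p) : Cm d N p ≠ ⊤ := by
  obtain ⟨t0, t1, t2, t3⟩ := tau_spec hd hp
  have hdi : (0 : ℝ) < 1 / (d : ℝ) := by
    have : (0 : ℝ) < d := by exact_mod_cast hd
    positivity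
  obtain ⟨a0, b0, g0, -⟩ := exps hd t2
  obtain ⟨a1, b1, g1, -⟩ := exps hd t3
  unfold Cm
  refine ENNReal.mul_ne_top (ENNReal.add_ne_top.2 ⟨Cr_fin (by linarith), Cr_fin (by linarith)⟩)
    (ENNReal.add_ne_top.2 ⟨Mc_fin a0.2 b0.2 g0.2, Mc_fin a1.2 b1.2 g1.2⟩)

section

variable {Y : Type*} [MeasurableSpace Y] {η : Measure Y} [SFinite η] {d N : ℕ} {T : Set ℝ}
  {c : Y → Eu d → Eu d} {M : Y → Eu d → Matrix (Fin d) (Fin d) ℝ}

/-- THE TRILINEAR ESTIMATE -/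
theorem FDat.trilinear (h : FDat η d N T c M) (hd : 1 ≤ d) (p : ℝ) (hp : 1 + 1 / (d : ℝ) < p)
    {g : Y → ℝ≥0∞} {k : Eu d → ℝ≥0∞} {φ : ℝ × Eu d → ℝ≥0∞} (hg : Measurable g)
    (hk : Measurable k) (hφ : Measurable φ) :
    ∫⁻ x, g x.1 * k x.2.2 * φ (pos c x) ∂(zet η d T) ≤
      Cm d N p * ((∫⁻ y, g y ^ (d * p / (d + 1)) ∂η) ^ (1 / (d * p / (d + 1))) *
        (∫⁻ v, k v ^ (d * p / (d * p - 1))) ^ (1 / (d * p / (d * p - 1))) *
        (∫⁻ w, φ w ^ (p / (p - 1)) ∂(mu3 d T)) ^ (1 / (p / (p - 1)))) := by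
  have hd0 : (0 : ℝ) < d := by exact_mod_cast hd
  have hdi : 0 < 1 / (d : ℝ) := by positivity
  obtain ⟨t0, t1, t2, t3⟩ := tau_spec hd hp
  obtain ⟨a0, b0, g0, s0⟩ := exps hd t2
  obtain ⟨a1, b1, g1, s1⟩ := exps hd t3
  set τ := tau d p with hτ
  have hp0 : 0 < p := by linarith
  have hp1 : 0 < p - 1 := by linarith
  have hdp : (d : ℝ) + 1 < d * p := by
    have : (d : ℝ) * (1 + 1 / (d : ℝ)) < d * p := mul_lt_mul_of_pos_left hp hd0
    have e : (d : ℝ) * (1 + 1 / (d : ℝ)) = d + 1 := by field_simp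
    linarith
  have hdp1 : 0 < (d : ℝ) * p - 1 := by linarith
  have P1 : 1 ≤ (d : ℝ) * p / (d + 1) := by rw [le_div_iff₀ (by positivity)]; linarith
  have P2 : 1 ≤ (d : ℝ) * p / (d * p - 1) := by rw [le_div_iff₀ hdp1]; linarith
  have P3 : 1 ≤ p / (p - 1) := by rw [le_div_iff₀ hp1]; linarith
  have ht1 : 0 < 1 + τ := by linarith
  have ht2 : 0 < 1 - τ := by linarith
  set C : ℝ≥0∞ := Cr d N (p / (1 + τ)) + Cr d N (p / (1 - τ)) with hC
  have hC0 : C ≠ 0 := fun h => Cr_pos hd (add_eq_zero.1 h).1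
  have key := interp (zet η d T) η (volume : Measure (Eu d)) (mu3 d T)
    (π1 := fun x : Y × ℝ × Eu d => x.1) (π2 := fun x : Y × ℝ × Eu d => x.2.2) (π3 := pos c)
    measurable_fst (measurable_snd.comp measurable_snd) h.measurable_pos C hC0
    (d * p / (d + 1)) (d * p / (d * p - 1)) (p / (p - 1)) P1 P2 P3
    (1 / (p / (1 + τ)) * (1 + 1 / (d : ℝ))) (1 - 1 / (p / (1 + τ)) * (1 / (d : ℝ)))
    (1 - 1 / (p / (1 + τ)))
    (1 / (p / (1 - τ)) * (1 + 1 / (d : ℝ))) (1 - 1 / (p / (1 - τ)) * (1 / (d : ℝ)))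
    (1 - 1 / (p / (1 - τ)))
    (1 / 2) (-(2 * τ)) (2 * τ / (d * p - 1)) (2 * τ / (p - 1)) (1 / 2)
    a0 b0 g0 a1 b1 g1 s0 s1 (by norm_num) le_rfl (by norm_num)
    (by have : 0 < 2 * τ := by positivity
        exact (neg_neg_of_pos this).ne)
    (by positivity) (by positivity)
    (by field_simp; ring) (by field_simp; ring) (by field_simp; ring)
    (by field_simp; ring) (by field_simp; ring) (by field_simp; ring)
    (fun G F S hG hF hS => (h.restricted hd _ t2 G F S hG hF hS).trans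
      (mul_le_mul' le_self_add le_rfl))
    (fun G F S hG hF hS => (h.restricted hd _ t3 G F S hG hF hS).trans
      (mul_le_mul' le_add_self le_rfl))
    hg hk hφ
  exact key

end

end Pool.Agent.FTX
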